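import Pool.Agent.MP_5168f5_an.H29N.Ctx
import Pool.Agent.MP_5168f5_an.H17F.SqApi
import Pool.Agent.MP_5168f5_an.H39F.Spec

/-! The noise step for sequences. -/

namespace Pool.Agent.MP_5168f5_an.H29N

open H19 H17S Filter
open H17F (pb cE bil mi UF Le Sm Big Pos Whp NGA NC KE)

variable {N : ℕ}

theorem core_of (h : H39F.CoreP) : CoreP := by
  intro N e he _
  obtain ⟨q, c, hc, h⟩ := h N e he
  refine ⟨c, hc, fun ε hε => ?_⟩
  obtain ⟨R₀, κ, hκ, h⟩ := h ε hε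
  refine ⟨q, R₀, κ, hκ, fun R hR Ω P d w U L h1 h2 h3 h4 =>
    h R Ω P d w (H17F.cz '' (U : Set (Z N))) L hR h1 h2 h3 (le_trans (pb_mono P ?_) h4)⟩
  rintro ω - hn ⟨u, hu, e⟩
  exact hn ⟨_, ⟨u, hu, rfl⟩, e⟩

/-- No long window is a grain with positive probability. -/
theorem no_bad (hK : KE) {Ω₀ T Ω' : ℕ → Type} {P₀ : ∀ n, FP (Ω₀ n)} {Θ : ∀ n, Ω₀ n → T n}
    {A : ∀ n, Ω₀ n → Z N} {R : ℕ → ℕ} {e κ p₁ a : ℝ} {η : ℕ → ℝ} {q G : ℕ}
    {U : ∀ n, T n × Z N → Finset (Z N)} {Q : ∀ n, FP (Ω' n)} {ρ : ∀ n, Ω' n → Ω₀ n}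
    {ω : ∀ n, Ω' n → Z N} (hR : Big R) (hN : NGA P₀ Θ A R (2 * e)) (he : 0 < e) (he' : e ≤ 1)
    (hκ : 0 < κ) (hp : 0 < p₁) (hG0 : 0 < G) (hG : 12 ≤ e * κ * G)
    (hq : 4 * q * a ≤ p₁ * e * κ / 4) (hη : Sm R η) (hl : ∀ n, Law (Q n) (ρ n) (P₀ n) id)
    (h : ∀ᶠ n in UF, Law (Q n) (fun x => (Θ n (ρ n x), ω n x)) (P₀ n) (fun x => (Θ n x, A n x)) ∧
      ch (Q n) (ω n) (fun x => Θ n (ρ n x)) ≤ ch (Q n) (ω n) (ρ n) + η n ∧
      Tr (P₀ n) (Θ n) (A n) (U n) (Q n) (ρ n) (ω n) (a * R n) (η n))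
    (β lam : ℕ → ℕ) (hb : ∀ n, β n ≤ lam n ∧ lam n ≤ R n) (i : Fin N) :
    ∀ᶠ n in UF, pb (P₀ n) (fun x =>
      Bad (U n (Θ n x, A n x)) q (R n) (β n) (lam n) (R n / G + 1) i e (κ * R n)) ≤ p₁ := by
  classical
  by_contra hc
  rw [H17F.not_ev] at hc
  have hb' : ∀ n, ∃ b : T n × Z N → V N, (∀ v, b v i = 1 ∧ ‖b v‖ ≤ 1) ∧
      ((Law (Q n) (fun x => (Θ n (ρ n x), ω n x)) (P₀ n) (fun x => (Θ n x, A n x)) ∧
        Tr (P₀ n) (Θ n) (A n) (U n) (Q n) (ρ n) (ω n) (a * R n) (η n)) →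
      pb (Q n) (fun x => Bad (U n (Θ n (ρ n x), ω n x)) q (R n) (β n) (lam n) (R n / G + 1) i e
          (κ * R n)) * ((1 - e) * (lam n - β n) * lg - (2 * (R n / G + 1 : ℕ) + 1) * lg) ≤
      pb (Q n) (fun x => Bad (U n (Θ n (ρ n x), ω n x)) q (R n) (β n) (lam n) (R n / G + 1) i e
          (κ * R n)) *
        ch (cE (Q n) fun x => Bad (U n (Θ n (ρ n x), ω n x)) q (R n) (β n) (lam n)
          (R n / G + 1) i e (κ * R n)) (fun x => H17F.co (R n) (lam n) (A n (ρ n x)))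
          (fun x => (H17F.cq (R n) (lam n) i (b (Θ n (ρ n x), ω n x)) (A n (ρ n x)),
            H17F.co (R n) (β n) (A n (ρ n x)), ω n x, Θ n (ρ n x))) +
        4 * q * (a * R n) + η n + 10 * (N * 5)) := by
    intro n
    by_cases hn : Law (Q n) (fun x => (Θ n (ρ n x), ω n x)) (P₀ n) (fun x => (Θ n x, A n x)) ∧
        Tr (P₀ n) (Θ n) (A n) (U n) (Q n) (ρ n) (ω n) (a * R n) (η n)
    · obtain ⟨b, h1, h2⟩ := bad_bound hK hn.2 hn.1 q (R n) (β n) (lam n) (R n / G + 1) i e (κ * R n)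
      exact ⟨b, h1, fun _ => h2⟩
    · exact ⟨fun _ => Pi.single i 1, fun _ => ⟨by simp, by simp [Pi.norm_single]⟩,
        fun h => absurd h hn⟩
  choose b hb1 hb2 using hb'
  have hpos : ∀ᶠ n in UF, p₁ ≤ pb (Q n) fun x => Bad (U n (Θ n (ρ n x), ω n x)) q (R n) (β n)
      (lam n) (R n / G + 1) i e (κ * R n) := by
    filter_upwards [hc, h] with n h1 h2
    exact (not_le.1 h1).le.trans (le_of_eq (h2.1 fun v =>
      if Bad (U n v) q (R n) (β n) (lam n) (R n / G + 1) i e (κ * R n) then 1 else 0).symm)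
  have k := hN Ω' (fun _ => Z N) Q ρ ω β lam i (fun n x => b n (Θ n (ρ n x), ω n x))
    (fun n x => Bad (U n (Θ n (ρ n x), ω n x)) q (R n) (β n) (lam n) (R n / G + 1) i e (κ * R n))
    hl hb (hη.mono (h.mono fun n hn => by
      have : ch (Q n) (ω n) (ρ n) ≤ ch (Q n) (ω n) fun v => (ρ n v, Θ n (ρ n v)) :=
        ch_anti ((Fn.rfl _).pair (Fn.comp _ _))
      unfold mi
      linarith [hn.2.1]))
    (Eventually.of_forall fun n => ⟨fun x _ y _ e' => by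
        simp only [Prod.mk.injEq] at e' ⊢
        rw [e'.1, e'.2], fun x _ y _ e' => by
        simp only [Prod.mk.injEq] at e' ⊢
        rw [e'.1, e'.2], fun x _ => hb1 n _⟩) ⟨p₁, hp, hpos⟩
  have hG0' : (0 : ℝ) < G := by exact_mod_cast hG0
  obtain ⟨n, k1, k2, k3, k4, k5, k6⟩ := ((k (e * κ / 4) (by positivity)).and (hpos.and (h.and
    ((hη (p₁ * e * κ / 16) (by positivity)).and ((hR.ev (8 / (e * κ))).and
      (hR.sm (4 * p₁ + 50 * N + 1) (p₁ * e * κ / 8) (by positivity))))))).exists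
  obtain ⟨x, -, hx⟩ := H17F.ex_of_pb (hp.trans_le k2)
  have k7 := hb2 n ⟨k3.1, k3.2.2⟩
  rw [div_le_iff₀ (by positivity)] at k5
  refine arith (D := (lam n - β n) * lg) (m := (R n / G + 1 : ℕ)) (R := R n) (N := N) hp k2 he he'
    hκ (Nat.cast_nonneg _) (Nat.cast_nonneg _) ?_ hG0' hG hx.1 (le_of_le_of_eq k1 (by ring)) hq
    (by simpa using k4) (by linarith) (by linarith) (le_of_eq_of_le (by ring) k7)
  push_cast
  exact add_le_add Nat.cast_div_le le_rfl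

theorem small {c₁ c L x y : ℝ} {R : ℕ} (h1 : 2 * c ≤ c₁) (h2 : 4 * c ≤ lg)
    (hR : 1 ≤ c * R) (hL : L ≤ Real.exp (c * R)) (hx : x ≤ y + L)
    (hy : y ≤ 2 ^ R * Real.exp (-(c₁ * R))) : x ≤ 2 ^ R * Real.exp (-(c * R)) := by
  have hR0 : (0 : ℝ) ≤ R := Nat.cast_nonneg R
  have e2 : 2 ≤ Real.exp (c * R) := by linarith [Real.add_one_le_exp (c * R)]
  rw [H17F.two_pow_eq, ← Real.exp_add] at hy ⊢
  have k : ∀ t : ℝ, t + c * R ≤ R * lg + -(c * R) → 2 * Real.exp t ≤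
      Real.exp (R * lg + -(c * R)) := fun t ht => by
    refine le_trans ?_ (Real.exp_le_exp.2 ht)
    rw [Real.exp_add, mul_comm]
    exact mul_le_mul_of_nonneg_left e2 (Real.exp_pos t).le
  have k1 := k (R * lg + -(c₁ * R)) (by nlinarith)
  have k2 := k (c * R) (by nlinarith)
  linarith

theorem nc0 (hK : KE) (hC : CoreP) : NC := by
  intro N ε₀ h0 h1
  obtain ⟨c₁, hc₁, hC⟩ := hC N (ε₀ / 2) (half_pos h0) (by linarith)
  have hlg := lg_pos
  have hc : 0 < min c₁ (lg / 2) / 2 := half_pos (lt_min hc₁ (half_pos hlg))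
  refine ⟨min c₁ (lg / 2) / 2, hc, ?_⟩
  intro Ω₀ Ω T P₀ Θ₀ A₀ P Θ A A' d w R L hR hL hN hlaw hb i1 i2 i3 i4 ε hε
  obtain ⟨q, R₀, κ, hκ, hC⟩ := hC (ε / 2) (half_pos hε)
  set e := ε₀ / 2 with he
  have he0 : 0 < e := half_pos h0
  obtain ⟨G, hG⟩ := exists_nat_gt (12 / (e * κ))
  have hG0 : 0 < G := by
    exact_mod_cast lt_trans (show (0 : ℝ) < 12 / (e * κ) by positivity) hG
  rw [div_lt_iff₀ (by positivity)] at hG
  set k : ℝ := ((Fintype.card (Fin N × Fin (G + 1) × Fin (G + 1)) : ℕ) : ℝ) with hk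
  have hk0 : 0 ≤ k := Nat.cast_nonneg _
  set p₁ := ε / 10 / (k + 1) with hp₁
  have hp : 0 < p₁ := by positivity
  set a := p₁ * e * κ / 16 / (q + 1) with ha
  have ha0 : 0 < a := by positivity
  set t := a * κ * ε / 40 with ht
  have ht0 : 0 < t := by positivity
  obtain ⟨J, hJ⟩ := exists_nat_gt (3 * N / t)
  rw [div_lt_iff₀ ht0] at hJ
  set η : ℕ → ℝ := fun n => mi (P n) (A n) (fun ω => A' n ω - A n ω) (Θ n) with hη
  have ex : ∀ n, ∃ (U : T n × Z N → Finset (Z N)) (Ω' : Type) (Q : FP Ω') (ρ : Ω' → Ω₀ n)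
      (ω : Ω' → Z N), Law Q ρ (P₀ n) id ∧
      (ch (P₀ n) (A₀ n) (Θ₀ n) < J * (t * R n) ∧ 0 < a * R n →
        (Law Q (fun x => (Θ₀ n (ρ x), ω x)) (P₀ n) (fun x => (Θ₀ n x, A₀ n x)) ∧
        ch Q ω (fun x => Θ₀ n (ρ x)) ≤ ch Q ω ρ + 2 ^ J * η n ∧
        Tr (P₀ n) (Θ₀ n) (A₀ n) U Q ρ ω (a * R n) (2 ^ J * η n)) ∧
        (P n).E (fun x => if A n x - A' n x ∈ U (Θ n x, A n x) then 0 else 1) ≤
          (2 * (t * R n) + 3 * (2 ^ J * η n) + η n) / (a * R n)) := by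
    intro n
    by_cases hn : ch (P₀ n) (A₀ n) (Θ₀ n) < J * (t * R n) ∧ 0 < a * R n
    · obtain ⟨U, Ω', Q, ρ, ω, -, k1, k2, k3, k4, k5⟩ := noise (P₀ n) (Θ₀ n) (A₀ n) (P n) (Θ n)
        (A n) (A' n) (hlaw n).1 (hlaw n).2 (η := η n) (by
          have s1 := ch_symm (P := P n) (A n) (fun ω => A' n ω - A n ω) (Θ n)
          have s2 : ch (P n) (fun ω => A' n ω - A n ω) (fun ω => (A n ω, Θ n ω)) ≤
              ch (P n) (fun ω => A' n ω - A n ω) fun ω => (Θ n ω, A n ω) :=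
            ch_anti ((Fn.snd _ _).pair (Fn.fst _ _))
          simp only [hη, mi]
          linarith) hn.1 hn.2
      exact ⟨U, Ω', Q, ρ, ω, k1, fun _ => ⟨⟨k2, k3, k5⟩, k4⟩⟩
    · exact ⟨fun _ => ∅, _, P₀ n, id, fun _ => 0, fun _ => rfl, fun h => absurd h hn⟩
  choose U Ω' Q ρ ω hl hx using ex
  have good : ∀ᶠ n in UF, ch (P₀ n) (A₀ n) (Θ₀ n) < J * (t * R n) ∧ 0 < a * R n := by
    filter_upwards [hb, hR.ev 1] with n k1 k2
    have k3 := ch_vec (P₀ n) (Θ₀ n) (A₀ n) (R n) k1.1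
    have k4 : (0 : ℝ) ≤ N := Nat.cast_nonneg N
    exact ⟨by nlinarith, by positivity⟩
  have hq : 4 * q * a ≤ p₁ * e * κ / 4 := by
    have : a * (q + 1) = p₁ * e * κ / 16 := div_mul_cancel₀ _ (by positivity)
    linarith
  have bad := eventually_all.2 fun j : Fin N × Fin (G + 1) × Fin (G + 1) =>
    no_bad hK (U := U) (q := q) hR (by rw [he, mul_div_cancel₀ _ two_ne_zero]; exact hN) he0
      (by linarith) hκ hp hG0 (by linarith) hq (i1.smul (c := 2 ^ J) (by positivity)) hl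
      (good.mono fun n h => (hx n h).1)
      (fun n => min ((R n / G + 1) * j.2.1) (min ((R n / G + 1) * j.2.2) (R n)))
      (fun n => min ((R n / G + 1) * j.2.2) (R n))
      (fun n => ⟨min_le_right _ _, min_le_right _ _⟩) j.1
  have i4' : ∀ᶠ n in UF, R n * lg ≤ ch (P n) (fun ω => (w n ω).1) (fun ω => (A n ω, Θ n ω)) +
      κ * ε / 20 * R n ∨ ∀ ω ∈ (P n).S, (d n ω).2 = 0 :=
    i4.elim (fun h => (h _ (by positivity)).mono fun _ => Or.inl) fun h => h.mono fun _ => Or.inr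
  filter_upwards [bad, good, hb, hR.ev R₀, hR.ev 1, hL.2 κ hκ, hL.2 _ hc,
    hR.sm 1 _ hc, ((i1.smul (c := 3 * 2 ^ J) (by positivity)).add i1) (2 * t) (by positivity),
    i2 (κ * ε / 10) (by positivity), i3 (κ * ε / 20) (by positivity), i4',
    hR.sm 2 (κ * ε / 20) (by positivity)] with n b1 b2 b3 b4 b5 b6 b7 b8 b9 b10 b11 b12 b13
  have sw : ∀ {α : Type} (F : Ω n → α), ch (P n) F (fun ω => (A n ω, Θ n ω)) =
      ch (P n) F fun ω => (Θ n ω, A n ω) := fun F =>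
    le_antisymm (ch_anti ((Fn.snd _ _).pair (Fn.fst _ _)))
      (ch_anti ((Fn.snd _ _).pair (Fn.fst _ _)))
  have k := ctx (δ := ε / 10) (hC (R n) (by exact_mod_cast b4)) (P n) (fun x => (Θ n x, A n x))
    (d n) (w n) (U n) (fun x => A n x - A' n x) hκ (by exact_mod_cast b5) (half_pos hε).le
    (by positivity) (hL.1 n) b6 b3.2 ?_ ?_ ?_ (by rw [← sw]; linarith)
    (b12.imp (fun h => by rw [← sw]; linarith) id)
  · refine le_trans (pb_mono _ fun x hx hn => ?_) (k.trans (by linarith))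
    by_contra hs
    refine hn (small (c₁ := c₁) (by linarith [min_le_left c₁ (lg / 2)])
      (by linarith [min_le_right c₁ (lg / 2)]) (by simpa using b8) b7 ?_ (not_lt.1 hs))
    have s1 := (b3.2 x hx).2.2.2.2
    have s2 := norm_sub_le (bil (R n) (d n x) (w n x))
      (bil (R n) (d n x) (w n x) - H17F.cz (A n x - A' n x))
    have s3 : H17F.cz (A' n x - A n x) = -H17F.cz (A n x - A' n x) := by
      funext i; simp [H17F.cz]
    rw [sub_sub_cancel] at s2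
    rw [s3, norm_neg]
    linarith
  · refine le_trans (pb_union (P n) (fun j : Fin N × Fin (G + 1) × Fin (G + 1) => fun x =>
      Bad (U n (Θ n x, A n x)) q (R n)
        (min ((R n / G + 1) * j.2.1) (min ((R n / G + 1) * j.2.2) (R n)))
        (min ((R n / G + 1) * j.2.2) (R n)) (R n / G + 1) j.1 e (κ * R n)) (p := p₁)
      (fun x h => line_win (Nat.succ_pos _) ?_ he0.le (by linarith) (by positivity) h)
      fun j => le_trans (le_of_eq ?_) (b1 j)) ?_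
    · rw [mul_comm]; exact (Nat.lt_mul_div_succ _ hG0).le
    · classical
      exact (hlaw n).1 fun v => if Bad (U n v) q (R n)
        (min ((R n / G + 1) * j.2.1) (min ((R n / G + 1) * j.2.2) (R n)))
        (min ((R n / G + 1) * j.2.2) (R n)) (R n / G + 1) j.1 e (κ * R n) then 1 else 0
    · have : p₁ * (k + 1) = ε / 10 := div_mul_cancel₀ _ (by positivity)
      rw [← hk]
      linarith
  · refine (hx n b2).2.trans ?_
    rw [div_le_iff₀ b2.2]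
    have : κ * (ε / 10) * (a * R n) = 4 * t * R n := by rw [ht]; ring
    simp only [zero_add] at b9
    linarith
  · have s1 : ch (P n) (d n) (fun ω => (w n ω, A n ω, Θ n ω)) ≤
        ch (P n) (d n) fun ω => (w n ω, Θ n ω, A n ω) :=
      ch_anti fun x _ y _ e' => by simp only [Prod.mk.injEq] at e' ⊢; tauto
    rw [← sw]
    unfold mi at b10
    linarith

theorem nc (hK : KE) (hC : H39F.CoreP) : NC := nc0 hK (core_of hC)

end Pool.Agent.MP_5168f5_an.H29N
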