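import Pool.Agent.MP_5168f5_an.H17F.Defs
import Pool.Agent.MP_5168f5_an.H95F.Defs

/-! The finite sum-product statement used in the noise step. -/

namespace Pool.Agent.MP_5168f5_an.H29N

open H19 H17S H17F

/-- A bilinear expression in almost independent variables that stays near a set without dense
segments is small. -/
def CoreP : Prop := ∀ (N : ℕ) (e : ℝ), 0 < e → e ≤ 1 → ∃ c : ℝ, 0 < c ∧ ∀ ε : ℝ, 0 < ε →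
  ∃ (q R₀ : ℕ) (κ : ℝ), 0 < κ ∧ ∀ R : ℕ, R₀ ≤ R → ∀ (Ω : Type) (P : FP Ω) (d w : Ω → ℤ × Z N)
    (U : Finset (Z N)) (L : ℝ), 1 ≤ L → L ≤ Real.exp (κ * R) →
    (∀ ω ∈ P.S, |((d ω).1 : ℝ)| ≤ 2 ^ R ∧ |((w ω).1 : ℝ)| ≤ 2 * 2 ^ R ∧
      ‖cz (d ω).2‖ ≤ L * 2 ^ R ∧ ‖cz (w ω).2‖ ≤ L * 2 ^ R) →
    pb P (fun ω => ¬∃ u ∈ U, ‖bil R (d ω) (w ω) - cz u‖ ≤ L) ≤ κ →
    hh P d - ch P d w ≤ κ * R →
    R * lg - κ * R ≤ hh P (fun ω => (d ω).1) →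
    (R * lg - κ * R ≤ hh P (fun ω => (w ω).1) ∨ ∀ ω ∈ P.S, (d ω).2 = 0) →
    H95F.Line (cz '' (U : Set (Z N))) (2 ^ R) q (Real.exp (κ * R)) e →
    pb P (fun ω => 2 ^ R * Real.exp (-(c * R)) < ‖bil R (d ω) (w ω)‖) ≤ ε

end Pool.Agent.MP_5168f5_an.H29N
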