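import Pool.Agent.MP_5168f5_an.H29N.Win
import Pool.Agent.MP_5168f5_an.H29N.CoreP
import Pool.Agent.MP_5168f5_an.H17F.Spec

/-! Windows on a grid and the entropy on the event that a window is a grain. -/

namespace Pool.Agent.MP_5168f5_an.H29N

open H19 H17S Pointwise
open H17F (pb cE co cq KE)

variable {N : ℕ}

theorem co_eq (R j : ℕ) : co (N := N) R j = wf (2 ^ R / 2 ^ j) := by
  funext u k
  simp only [co, fl, wf, Fq, cz, H17F.cz, Pi.smul_apply, smul_eq_mul]
  congr 1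
  field_simp

theorem cq_eq (R j j' : ℕ) (i : Fin N) (b : V N) :
    (fun y => (cq R j i b y, co R j' y)) = wg (2 ^ R / 2 ^ j) (2 ^ R / 2 ^ j') i b := by
  funext u
  rw [co_eq]
  refine Prod.ext ?_ rfl
  funext k
  simp only [cq, fl, wg, Fq, md, cz, H17F.cz, Pi.smul_apply, smul_eq_mul, Pi.sub_apply]
  congr 1
  field_simp

theorem sum_mem (U : Finset (Z N)) (q : ℕ) : ∀ a : Fin q → Z N, (∀ i, a i ∈ U) →
    ∑ i, a i ∈ q • U := by
  induction q with
  | zero => intro a _; simp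
  | succ q ih =>
    intro a ha
    rw [Fin.sum_univ_castSucc, succ_nsmul]
    exact Finset.add_mem_add (ih _ fun i => ha _) (ha _)

theorem nr_lev {U : Finset (Z N)} {q : ℕ} {μ : ℝ} {x : V N}
    (h : H95F.Nr (H17F.cz '' (U : Set (Z N))) q μ x) :
    ∃ s ∈ q • U, ∃ s' ∈ q • U, ‖x - (cz s - cz s')‖ ≤ μ := by
  obtain ⟨a, b, h1, h2⟩ := h
  choose a' ha ha' using fun i => (h1 i).1
  choose b' hb hb' using fun i => (h1 i).2
  refine ⟨_, sum_mem U q a' ha, _, sum_mem U q b' hb, le_of_eq_of_le ?_ h2⟩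
  congr 2
  funext k
  simp only [cz, ← ha', ← hb', H17F.cz, Pi.sub_apply, Finset.sum_apply, Int.cast_sum,
    Finset.sum_sub_distrib]

theorem grid {R m G : ℕ} (hm : 0 < m) (hG : R ≤ m * G) {x : ℝ} (h1 : 1 ≤ x) (h2 : x ≤ 2 ^ R) :
    ∃ b : Fin (G + 1), m * b ≤ R ∧ (m * b : ℕ) * lg ≤ Real.log x ∧
      Real.log x < (m * b : ℕ) * lg + m * lg := by
  obtain ⟨b, hb1, hb2⟩ := exists_nat_pow_near h1 (one_lt_pow₀ one_lt_two hm.ne' : (1 : ℝ) < 2 ^ m)
  rw [← pow_mul] at hb1 hb2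
  have h3 : m * b ≤ R := (pow_le_pow_iff_right₀ one_lt_two).1 (hb1.trans h2)
  have h4 : b ≤ G := Nat.le_of_mul_le_mul_left (h3.trans hG) hm
  refine ⟨⟨b, Nat.lt_succ_of_le h4⟩, h3, ?_, ?_⟩
  · rw [← log_two_pow]; exact Real.log_le_log (by positivity) hb1
  · have := Real.log_lt_log (by positivity) hb2
    rw [log_two_pow] at this
    push_cast at this ⊢
    linarith

/-- The window `[β, lam]` is long and is a grain for the levels of `U`. -/
def Bad (U : Finset (Z N)) (q R β lam m : ℕ) (i : Fin N) (e k : ℝ) : Prop :=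
  k - m * lg ≤ (lam - β) * lg ∧ ∃ b : V N, (b i = 1 ∧ ‖b‖ ≤ 1) ∧ ∃ q' ≤ q,
    ∃ (W : Finset ℤ) (u u' : ℤ → Z N), Gr U q' (121 ^ N) (co R lam)
      (fun y => (cq R lam i b y, co R β y)) ((1 - e) * (lam - β) * lg - (2 * m + 1) * lg) W u u'

theorem line_win {U : Finset (Z N)} {q R m G : ℕ} {e k : ℝ} (hm : 0 < m) (hG : R ≤ m * G)
    (he : 0 ≤ e) (he' : e ≤ 1) (hk : 0 ≤ k)
    (h : ¬H95F.Line (H17F.cz '' (U : Set (Z N))) (2 ^ R) q (Real.exp k) e) :
    ∃ j : Fin N × Fin (G + 1) × Fin (G + 1),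
      Bad U q R (min (m * j.2.1) (min (m * j.2.2) R)) (min (m * j.2.2) R) m j.1 e k := by
  unfold H95F.Line at h
  push Not at h
  obtain ⟨q', hq, v, μ, L, T, h1, h2, h3, h4, h5, h6, h7⟩ := h
  push_cast at h4 h6 h7
  have hL : 1 ≤ L := (Real.one_le_exp hk).trans h2
  have hμ : 0 < μ := by linarith
  have hμv : μ ≤ ‖v‖ := (le_mul_of_one_le_right hμ.le hL).trans h3
  have hv : 0 < ‖v‖ := hμ.trans_le hμv
  have hn : (0 : ℝ) < 2 ^ R := by positivity
  obtain ⟨i, hi⟩ : ∃ i, |v i| = ‖v‖ := by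
    by_contra hc
    push Not at hc
    exact lt_irrefl _ ((pi_norm_lt_iff hv).2 fun i =>
      lt_of_le_of_ne (norm_le_pi_norm v i) (hc i))
  obtain ⟨b, b1, b2, b3⟩ := grid hm hG ((one_le_div hv).2 h4)
    (div_le_self hn.le (h1.trans hμv))
  obtain ⟨l, l1, l2, l3⟩ := grid hm hG ((one_le_div hμ).2 (hμv.trans h4)) (div_le_self hn.le h1)
  rw [Real.log_div hn.ne' hv.ne', log_two_pow] at b2 b3
  rw [Real.log_div hn.ne' hμ.ne', log_two_pow] at l2 l3
  have hlg := lg_pos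
  have g1 : Real.log μ + Real.log L ≤ Real.log ‖v‖ := by
    rw [← Real.log_mul hμ.ne' (by positivity)]; exact Real.log_le_log (by positivity) h3
  have g2 : k ≤ Real.log L := (Real.le_log_iff_exp_le (by positivity)).2 h2
  have hbl : m * b ≤ m * l := by
    have h8 : ((m * b : ℕ) : ℝ) * lg < ((m * (l + 1) : ℕ) : ℝ) * lg := by
      push_cast at b2 l3 ⊢; linarith
    have h9 : m * b < m * (l + 1) := by exact_mod_cast lt_of_mul_lt_mul_right h8 hlg.le
    exact Nat.mul_le_mul_left m (Nat.lt_succ_iff.1 (Nat.lt_of_mul_lt_mul_left h9))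
  have hle : ∀ {x : ℝ} {j : ℕ}, 0 < x → j * lg ≤ R * lg - Real.log x → x ≤ 2 ^ R / 2 ^ j := by
    intro x j hx hj
    rw [← Real.log_le_log_iff hx (by positivity), Real.log_div hn.ne' (by positivity),
      log_two_pow, log_two_pow]
    linarith
  have hφ1 : (1 : ℝ) ≤ 2 ^ R / 2 ^ (m * l) := h1.trans (hle hμ l2)
  have hT : (0 : ℝ) < T.card := lt_trans (by positivity) h7
  obtain ⟨W, u, u', hW⟩ := win (U := U) (q := q') (T := T) hn hv hi (hle hμ l2) (by positivity)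
    (div_le_div_of_nonneg_left hn.le (by positivity) (pow_le_pow_right₀ one_le_two hbl))
    (hle hv b2) (h4.trans (le_mul_of_one_le_right hn.le hφ1))
    (Finset.card_pos.1 (by exact_mod_cast hT))
    (fun t ht => by
      have := Finset.mem_Ico.1 (h5 ht)
      exact ⟨by exact_mod_cast this.1, by exact_mod_cast this.2.le⟩)
    fun t ht t' ht' => nr_lev (h6 t ht t' ht')
  refine ⟨(i, b, l), ?_⟩
  simp only [min_eq_left l1, min_eq_left hbl]
  have hvi : v i ≠ 0 := fun e => by rw [e, abs_zero] at hi; exact hv.ne hi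
  refine ⟨by linarith, (v i)⁻¹ • v, ⟨inv_mul_cancel₀ hvi, ?_⟩, q', hq, W, u, u', ?_⟩
  · rw [norm_smul, norm_inv, Real.norm_eq_abs, hi, inv_mul_cancel₀ hv.ne']
  · rw [cq_eq, co_eq]
    refine ⟨hW.ne, le_trans ?_ hW.big, hW.lev, hW.sep, hW.inv, hW.sub⟩
    have g3 := Real.log_lt_log (by positivity) h7
    rw [Real.log_mul hn.ne' (by positivity), Real.log_rpow (by positivity), log_two_pow] at g3
    rw [Real.log_div (by positivity) two_ne_zero, Real.log_mul (by positivity) hT.ne',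
      Real.log_div hv.ne' (by positivity), Real.log_mul hn.ne' (by positivity),
      Real.log_div hn.ne' (by positivity), log_two_pow, log_two_pow]
    change _ ≤ _ - lg
    have g4 : (1 - e) * (((m * l : ℕ) - (m * b : ℕ)) * lg) ≤
        (1 - e) * (Real.log ‖v‖ - Real.log μ + m * lg) :=
      mul_le_mul_of_nonneg_left (by linarith) (by linarith)
    have g5 : e * Real.log L ≤ e * (Real.log ‖v‖ - Real.log μ) :=
      mul_le_mul_of_nonneg_left (by linarith) he
    have g6 : 0 ≤ e * (m * lg) := by positivity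
    linarith

theorem pb_nonneg {Ω : Type} (P : FP Ω) (E : Ω → Prop) : 0 ≤ pb P E :=
  P.E_nonneg fun _ _ => by split_ifs <;> norm_num

theorem pb_le_one {Ω : Type} (P : FP Ω) (E : Ω → Prop) : pb P E ≤ 1 :=
  le_trans (P.E_mono fun _ _ => by split_ifs <;> norm_num) (P.E_const 1).le

theorem mem_cE {Ω : Type} {P : FP Ω} {E : Ω → Prop} (h : ∃ ω ∈ P.S, E ω) {a : Ω}
    (ha : a ∈ (cE P E).S) : a ∈ P.S ∧ E a := by
  classical
  unfold cE at ha
  rw [dif_pos h] at ha
  exact Finset.mem_filter.1 ha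

open Classical in
/-- Entropy of a variable that is constant off an event. -/
theorem ch_ite (hK : KE) {Ω α β : Type} (P : FP Ω) (E : Ω → Prop) (F : Ω → α) (c : α) (G : Ω → β)
    (h : Fn P E G) : ch P (fun x => if E x then F x else c) G = pb P E * ch (cE P E) F G := by
  rw [hK.eq P E _ G h]
  have h1 : (1 - pb P E) * ch (cE P fun ω => ¬E ω) (fun x => if E x then F x else c) G = 0 := by
    by_cases hn : ∃ ω ∈ P.S, ¬E ω
    · rw [ch_zero, mul_zero]
      intro a ha b hb _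
      simp only [if_neg (mem_cE hn ha).2, if_neg (mem_cE hn hb).2]
    · push Not at hn
      have : pb P E = 1 := (P.E_congr fun ω hω => if_pos (hn ω hω)).trans (P.E_const 1)
      rw [this, sub_self, zero_mul]
  rw [h1, add_zero]
  by_cases hp : ∃ ω ∈ P.S, E ω
  · congr 1
    refine le_antisymm (ch_mono fun a ha b hb e => ?_) (ch_mono fun a ha b hb e => ?_)
    · simpa only [if_pos (mem_cE hp ha).2, if_pos (mem_cE hp hb).2] using congrArg Prod.fst e
    · simpa only [if_pos (mem_cE hp ha).2, if_pos (mem_cE hp hb).2] using congrArg Prod.fst e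
  · push Not at hp
    have : pb P E = 0 := (P.E_congr fun ω hω => if_neg (hp ω hω)).trans (P.E_const 0)
    rw [this, zero_mul, zero_mul]

/-- The last clause of the noise theorem. -/
def Tr {T Ω0 Ω' : Type} (P0 : FP Ω0) (Θ : Ω0 → T) (A : Ω0 → Z N) (U : T × Z N → Finset (Z N))
    (Q : FP Ω') (ρ : Ω' → Ω0) (ω : Ω' → Z N) (ε κ : ℝ) : Prop :=
  ∀ (β γ ι : Type) (q : ℕ) (C : ℝ) (f : T × Z N → Z N → β) (g : T × Z N → Z N → γ)
    (l : T × Z N → ℝ), 1 ≤ C → (∀ v, QI (f v) C) → (∀ v, QI (g v) C) →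
    (∀ v, l v ≤ 0 ∨ ∃ q' ≤ q, ∃ (W : Finset ι) (u u' : ι → Z N),
      Gr (U v) q' C (f v) (g v) (l v) W u u') →
    P0.E (fun x => l (Θ x, A x)) ≤
      ch Q (fun x => f (Θ (ρ x), ω x) (A (ρ x)))
        (fun x => (g (Θ (ρ x), ω x) (A (ρ x)), Θ (ρ x), ω x)) + 4 * q * ε + κ + 10 * Real.log C

theorem bad_bound (hK : KE) {T Ω0 Ω' : Type} {P0 : FP Ω0} {Θ : Ω0 → T} {A : Ω0 → Z N}
    {U : T × Z N → Finset (Z N)} {Q : FP Ω'} {ρ : Ω' → Ω0} {ω : Ω' → Z N} {ε κ : ℝ}
    (h : Tr P0 Θ A U Q ρ ω ε κ) (hl : Law Q (fun x => (Θ (ρ x), ω x)) P0 fun x => (Θ x, A x))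
    (q R β lam m : ℕ) (i : Fin N) (e k : ℝ) :
    ∃ b : T × Z N → V N, (∀ v, b v i = 1 ∧ ‖b v‖ ≤ 1) ∧
      pb Q (fun x => Bad (U (Θ (ρ x), ω x)) q R β lam m i e k) *
        ((1 - e) * (lam - β) * lg - (2 * m + 1) * lg) ≤
      pb Q (fun x => Bad (U (Θ (ρ x), ω x)) q R β lam m i e k) *
        ch (cE Q fun x => Bad (U (Θ (ρ x), ω x)) q R β lam m i e k) (fun x => co R lam (A (ρ x)))
          (fun x => (cq R lam i (b (Θ (ρ x), ω x)) (A (ρ x)), co R β (A (ρ x)), ω x, Θ (ρ x))) +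
        4 * q * ε + κ + 10 * (N * 5) := by
  classical
  have hb : ∀ v, ∃ b : V N, (b i = 1 ∧ ‖b‖ ≤ 1) ∧ (Bad (U v) q R β lam m i e k → ∃ q' ≤ q,
      ∃ (W : Finset ℤ) (u u' : ℤ → Z N), Gr (U v) q' (121 ^ N) (co R lam)
        (fun y => (cq R lam i b y, co R β y)) ((1 - e) * (lam - β) * lg - (2 * m + 1) * lg)
        W u u') := by
    intro v
    by_cases hv : Bad (U v) q R β lam m i e k
    · obtain ⟨b, h1, h2⟩ := hv.2
      exact ⟨b, h1, fun _ => h2⟩
    · exact ⟨Pi.single i 1, ⟨by simp, by simp [Pi.norm_single]⟩, fun h => absurd h hv⟩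
  choose b hb1 hb2 using hb
  refine ⟨b, hb1, ?_⟩
  have h1 := h (Z N) (Z N × Z N) ℤ q (121 ^ N)
    (fun v y => if Bad (U v) q R β lam m i e k then co R lam y else 0)
    (fun v y => (cq R lam i (b v) y, co R β y))
    (fun v => if Bad (U v) q R β lam m i e k then
      (1 - e) * (lam - β) * lg - (2 * m + 1) * lg else 0)
    (one_le_pow₀ (by norm_num))
    (fun v => by
      by_cases hv : Bad (U v) q R β lam m i e k
      · simp only [if_pos hv, co_eq]
        exact qi_wf (by positivity)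
      · simp only [if_neg hv]
        exact fun _ _ => ⟨{0}, by simpa using one_le_pow₀ (by norm_num), fun _ _ => by simp⟩)
    (fun v => by rw [cq_eq]; exact qi_wg (by positivity) (by positivity) _ _)
    fun v => by
      by_cases hv : Bad (U v) q R β lam m i e k
      · simp only [if_pos hv]
        exact Or.inr (hb2 v hv)
      · exact Or.inl (if_neg hv).le
  rw [← hl fun v => if Bad (U v) q R β lam m i e k then
      (1 - e) * (lam - β) * lg - (2 * m + 1) * lg else 0] at h1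
  have h2 := ch_ite hK Q (fun x => Bad (U (Θ (ρ x), ω x)) q R β lam m i e k)
    (fun x => co R lam (A (ρ x))) 0
    (fun x => (cq R lam i (b (Θ (ρ x), ω x)) (A (ρ x)), co R β (A (ρ x)), ω x, Θ (ρ x)))
    fun a _ a' _ e' => by
      simp only [Prod.mk.injEq] at e' ⊢
      rw [e'.2.2.1, e'.2.2.2]
  have h3 : ch Q (fun x => if Bad (U (Θ (ρ x), ω x)) q R β lam m i e k then co R lam (A (ρ x))
      else 0) (fun x => ((cq R lam i (b (Θ (ρ x), ω x)) (A (ρ x)), co R β (A (ρ x))),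
        Θ (ρ x), ω x)) ≤ ch Q (fun x => if Bad (U (Θ (ρ x), ω x)) q R β lam m i e k then
      co R lam (A (ρ x)) else 0)
      fun x => (cq R lam i (b (Θ (ρ x), ω x)) (A (ρ x)), co R β (A (ρ x)), ω x, Θ (ρ x)) :=
    ch_anti fun a _ a' _ e' => by simp only [Prod.mk.injEq] at e' ⊢; tauto
  have h4 : Q.E (fun x => if Bad (U (Θ (ρ x), ω x)) q R β lam m i e k then
      (1 - e) * (lam - β) * lg - (2 * m + 1) * lg else 0) =
      ((1 - e) * (lam - β) * lg - (2 * m + 1) * lg) *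
        pb Q fun x => Bad (U (Θ (ρ x), ω x)) q R β lam m i e k := by
    unfold pb
    rw [← Q.E_mul]
    exact Q.E_congr fun x _ => by split_ifs <;> simp
  have h5 : Real.log ((121 : ℝ) ^ N) ≤ N * 5 := by
    rw [Real.log_pow]
    exact mul_le_mul_of_nonneg_left (log_le_five (by norm_num) (by norm_num)) (Nat.cast_nonneg _)
  linarith

end Pool.Agent.MP_5168f5_an.H29N
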