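import Pool.Agent.MP_5168f5_an.H29N.Bad

/-! Averaging the finite sum-product statement over contexts. -/

namespace Pool.Agent.MP_5168f5_an.H29N

open H19 H17S
open H17F (pb bil)

variable {N : ℕ}

theorem hh_int {Ω : Type} (P : FP Ω) (x : Ω → ℤ) (R : ℕ) (h : ∀ ω ∈ P.S, |(x ω : ℝ)| ≤ 2 * 2 ^ R) :
    hh P x ≤ R * lg + 2 := by
  rw [← ch_unit]
  have h1 : Det P x (fun _ => ()) (5 * 2 ^ R) := fun a _ => by
    refine ⟨Finset.Icc (-(2 * 2 ^ R)) (2 * 2 ^ R), ?_, fun b hb _ => ?_⟩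
    · rw [Int.card_Icc]
      have e : (2 * 2 ^ R + 1 - -(2 * 2 ^ R) : ℤ) = ((4 * 2 ^ R + 1 : ℕ) : ℤ) := by push_cast; ring
      have : (1 : ℝ) ≤ 2 ^ R := one_le_pow₀ one_le_two
      rw [e, Int.toNat_natCast]; push_cast; linarith
    · rw [Finset.mem_Icc, ← abs_le]
      exact_mod_cast h b hb
  refine (ch_det h1).trans ?_
  rw [Real.log_mul (by norm_num) (by positivity), log_two_pow]
  have h2 : Real.log 5 ≤ Real.log ((2 : ℝ) ^ 2 * (5 / 4)) := le_of_eq (by norm_num)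
  rw [Real.log_mul (by norm_num) (by norm_num), log_two_pow] at h2
  have h3 := Real.log_le_sub_one_of_pos (show (0 : ℝ) < 5 / 4 by norm_num)
  have h4 := Real.log_two_lt_d9
  unfold lg at *
  push_cast at h2
  linarith

theorem ch_vec {Ω T : Type} (P : FP Ω) (Θ : Ω → T) (A : Ω → Z N) (R : ℕ)
    (h : ∀ ω ∈ P.S, ∀ ω' ∈ P.S, Θ ω = Θ ω' → ‖cz (A ω - A ω')‖ ≤ 2 ^ R) :
    ch P A Θ ≤ N * (R + 2) := by
  have h1 : Det P A Θ ((2 ^ (R + 2)) ^ N) := fun a ha => by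
    obtain ⟨W, h1, h2⟩ := few one_pos (2 ^ R) (fun b => b ∈ P.S ∧ Θ b = Θ a) (fun b => cz (A b))
      fun b b' hb hb' => by
        have := h b hb.1 b' hb'.1 (hb.2.trans hb'.2.symm)
        have e : cz (A b - A b') = cz (A b) - cz (A b') := by funext k; simp [cz]
        rw [e] at this
        push_cast; linarith
    refine ⟨W, ?_, fun b hb e => ?_⟩
    · have h3 : 2 * 2 ^ R + 1 ≤ 2 ^ (R + 2) := by
        have := Nat.one_le_two_pow (n := R)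
        rw [pow_add]; omega
      exact_mod_cast h1.trans (Nat.pow_le_pow_left h3 N)
    · have e' : Fq 1 (cz (A b)) = A b := by funext k; simp [Fq, cz]
      exact e' ▸ h2 b ⟨hb, e⟩
  refine (ch_det h1).trans ?_
  rw [Real.log_pow, log_two_pow]
  refine mul_le_mul_of_nonneg_left ?_ (Nat.cast_nonneg _)
  push_cast
  exact mul_le_of_le_one_right (by positivity) lg_lt_one.le

/-- The finite statement at fixed parameters. -/
def CoreAt (N : ℕ) (e c ε κ : ℝ) (q R : ℕ) : Prop :=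
  ∀ (Ω : Type) (P : FP Ω) (d w : Ω → ℤ × Z N)
    (U : Finset (Z N)) (L : ℝ), 1 ≤ L → L ≤ Real.exp (κ * R) →
    (∀ ω ∈ P.S, |((d ω).1 : ℝ)| ≤ 2 ^ R ∧ |((w ω).1 : ℝ)| ≤ 2 * 2 ^ R ∧
      ‖H17F.cz (d ω).2‖ ≤ L * 2 ^ R ∧ ‖H17F.cz (w ω).2‖ ≤ L * 2 ^ R) →
    pb P (fun ω => ¬∃ u ∈ U, ‖bil R (d ω) (w ω) - H17F.cz u‖ ≤ L) ≤ κ →
    hh P d - ch P d w ≤ κ * R →
    R * lg - κ * R ≤ hh P (fun ω => (d ω).1) →
    (R * lg - κ * R ≤ hh P (fun ω => (w ω).1) ∨ ∀ ω ∈ P.S, (d ω).2 = 0) →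
    H95F.Line (H17F.cz '' (U : Set (Z N))) (2 ^ R) q (Real.exp (κ * R)) e →
    pb P (fun ω => 2 ^ R * Real.exp (-(c * R)) < ‖bil R (d ω) (w ω)‖) ≤ ε

theorem ctx0 {e c ε κ : ℝ} {q R : ℕ} (hC : CoreAt N e c ε κ q R) {Ω W : Type} (P : FP Ω)
    (v : Ω → W) (d w : Ω → ℤ × Z N) (U : W → Finset (Z N)) (D : Ω → Z N) {L : ℝ} (hκ : 0 < κ)
    (hR : 0 < R) (hε : 0 ≤ ε) (h1 : 1 ≤ L) (h2 : L ≤ Real.exp (κ * R))
    (hb : ∀ ω ∈ P.S, |((d ω).1 : ℝ)| ≤ 2 ^ R ∧ |((w ω).1 : ℝ)| ≤ 2 * 2 ^ R ∧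
      ‖H17F.cz (d ω).2‖ ≤ L * 2 ^ R ∧ ‖H17F.cz (w ω).2‖ ≤ L * 2 ^ R ∧
      ‖bil R (d ω) (w ω) - H17F.cz (D ω)‖ ≤ L) (Y : W → ℝ) (hY0 : ∀ ω ∈ P.S, 0 ≤ Y (v ω))
    (hY : ∀ ω ∈ P.S, Y (v ω) ≤ κ * R →
      R * lg - κ * R ≤ hh (cv P v (v ω)) (fun a => (w a).1) ∨ ∀ a ∈ P.S, (d a).2 = 0) :
    pb P (fun ω => 2 ^ R * Real.exp (-(c * R)) < ‖bil R (d ω) (w ω)‖) ≤ ε +
      pb P (fun ω => ¬H95F.Line (H17F.cz '' (U (v ω) : Set (Z N))) (2 ^ R) q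
        (Real.exp (κ * R)) e) + κ⁻¹ * P.E (fun ω => if D ω ∈ U (v ω) then 0 else 1) +
      (κ * R)⁻¹ * ((ch P d v - ch P d fun ω => (w ω, v ω)) +
        (R * lg + 2 - ch P (fun ω => (d ω).1) v) + P.E fun ω => Y (v ω)) := by
  classical
  have hκR : 0 < κ * R := by positivity
  have e0 : pb P (fun ω => 2 ^ R * Real.exp (-(c * R)) < ‖bil R (d ω) (w ω)‖) =
      P.E fun ω => pb (cv P v (v ω)) fun a => 2 ^ R * Real.exp (-(c * R)) < ‖bil R (d a) (w a)‖ :=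
    (E_cv P v fun _ a => if 2 ^ R * Real.exp (-(c * R)) < ‖bil R (d a) (w a)‖ then 1 else 0).symm
  rw [e0, ← E_cv P v fun s a => if D a ∈ U s then 0 else 1, ← ent_cv P v fun _ => d,
    ← ch_cv P v (fun _ => d) fun _ => w, ← ent_cv P v fun _ a => (d a).1, ← P.E_const ε,
    ← P.E_const (R * lg + 2), pb, ← FP.E_sub, ← FP.E_sub, ← FP.E_add, ← FP.E_add, ← FP.E_add,
    ← FP.E_mul, ← FP.E_mul, ← FP.E_add, ← FP.E_add]
  refine P.E_mono fun ω hω => ?_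
  have hm : ∀ a ∈ (cv P v (v ω)).S, a ∈ P.S := fun a ha => ((mem_cv P v ⟨ω, hω, rfl⟩ a).1 ha).1
  set Pv := cv P v (v ω)
  have k1 : 0 ≤ Pv.E fun a => if D a ∈ U (v ω) then (0 : ℝ) else 1 :=
    Pv.E_nonneg fun _ _ => by split_ifs <;> norm_num
  have k2 : 0 ≤ hh Pv d - ch Pv d w := sub_nonneg.2 (ch_le_hh _ _)
  have k3 : 0 ≤ R * lg + 2 - hh Pv fun a => (d a).1 := sub_nonneg.2 (hh_int Pv _ R fun a ha => by
    have := (hb a (hm a ha)).1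
    have h : (0 : ℝ) < 2 ^ R := by positivity
    linarith)
  have k4 := hY0 ω hω
  have k5 := pb_le_one Pv fun a => 2 ^ R * Real.exp (-(c * R)) < ‖bil R (d a) (w a)‖
  have k6 : 0 ≤ κ⁻¹ * Pv.E fun a => if D a ∈ U (v ω) then (0 : ℝ) else 1 := by positivity
  have k7 : 0 ≤ (κ * R)⁻¹ * (hh Pv d - ch Pv d w + (R * lg + 2 - hh Pv fun a => (d a).1) +
      Y (v ω)) := by positivity
  split_ifs with hl
  swap
  · linarith
  by_cases c1 : κ < Pv.E fun a => if D a ∈ U (v ω) then (0 : ℝ) else 1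
  · have := (one_le_inv_mul₀ hκ).2 c1.le
    linarith
  by_cases c2 : κ * R < hh Pv d - ch Pv d w + (R * lg + 2 - hh Pv fun a => (d a).1) + Y (v ω)
  · have := (one_le_inv_mul₀ hκR).2 c2.le
    linarith
  push Not at c1 c2
  have := hC Ω Pv d w (U (v ω)) L h1 h2
    (fun a ha => ⟨(hb a (hm a ha)).1, (hb a (hm a ha)).2.1, (hb a (hm a ha)).2.2.1,
      (hb a (hm a ha)).2.2.2.1⟩)
    (le_trans (Pv.E_mono fun a ha => by
      by_cases h : D a ∈ U (v ω)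
      · rw [if_pos h, if_neg (not_not.2 ⟨_, h, (hb a (hm a ha)).2.2.2.2⟩)]
      · rw [if_neg h]; split_ifs <;> norm_num) c1)
    (by linarith) (by linarith)
    ((hY ω hω (by linarith)).imp id fun h a ha => h a (hm a ha)) hl
  linarith

theorem ctx {e c ε κ δ : ℝ} {q R : ℕ} (hC : CoreAt N e c ε κ q R) {Ω W : Type} (P : FP Ω)
    (v : Ω → W) (d w : Ω → ℤ × Z N) (U : W → Finset (Z N)) (D : Ω → Z N) {L : ℝ} (hκ : 0 < κ)
    (hR : 0 < R) (hε : 0 ≤ ε) (hδ : 0 ≤ δ) (h1 : 1 ≤ L) (h2 : L ≤ Real.exp (κ * R))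
    (hb : ∀ ω ∈ P.S, |((d ω).1 : ℝ)| ≤ 2 ^ R ∧ |((w ω).1 : ℝ)| ≤ 2 * 2 ^ R ∧
      ‖H17F.cz (d ω).2‖ ≤ L * 2 ^ R ∧ ‖H17F.cz (w ω).2‖ ≤ L * 2 ^ R ∧
      ‖bil R (d ω) (w ω) - H17F.cz (D ω)‖ ≤ L)
    (i1 : pb P (fun ω => ¬H95F.Line (H17F.cz '' (U (v ω) : Set (Z N))) (2 ^ R) q
      (Real.exp (κ * R)) e) ≤ δ)
    (i2 : P.E (fun ω => if D ω ∈ U (v ω) then 0 else 1) ≤ κ * δ)
    (i3 : (ch P d v - ch P d fun ω => (w ω, v ω)) ≤ κ * R * δ)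
    (i4 : R * lg + 2 - ch P (fun ω => (d ω).1) v ≤ κ * R * δ)
    (i5 : R * lg + 2 - ch P (fun ω => (w ω).1) v ≤ κ * R * δ ∨ ∀ a ∈ P.S, (d a).2 = 0) :
    pb P (fun ω => 2 ^ R * Real.exp (-(c * R)) < ‖bil R (d ω) (w ω)‖) ≤ ε + 5 * δ := by
  have hκR : 0 < κ * R := by positivity
  obtain ⟨Y, y1, y2, y3⟩ : ∃ Y : W → ℝ, (∀ ω ∈ P.S, 0 ≤ Y (v ω)) ∧ (∀ ω ∈ P.S, Y (v ω) ≤ κ * R →
      R * lg - κ * R ≤ hh (cv P v (v ω)) (fun a => (w a).1) ∨ ∀ a ∈ P.S, (d a).2 = 0) ∧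
      P.E (fun ω => Y (v ω)) ≤ κ * R * δ := by
    rcases i5 with h | h
    · refine ⟨fun s => R * lg + 2 - hh (cv P v s) fun a => (w a).1, fun ω hω =>
        sub_nonneg.2 (hh_int _ _ R fun a ha => (hb a ((mem_cv P v ⟨ω, hω, rfl⟩ a).1 ha).1).2.1),
        fun ω _ h => Or.inl (by linarith), ?_⟩
      rw [FP.E_sub, FP.E_const, ent_cv P v fun _ a => (w a).1]
      exact h
    · refine ⟨fun _ => 0, fun _ _ => le_rfl, fun _ _ _ => Or.inr h, ?_⟩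
      rw [FP.E_const]; positivity
  have h := ctx0 hC P v d w U D hκ hR hε h1 h2 hb Y y1 y2
  have j1 := (inv_mul_le_iff₀ hκ).2 i2
  have j2 := (inv_mul_le_iff₀ hκR).2 (show (ch P d v - ch P d fun ω => (w ω, v ω)) +
    (R * lg + 2 - ch P (fun ω => (d ω).1) v) + P.E (fun ω => Y (v ω)) ≤ κ * R * (3 * δ) by
      linarith)
  linarith

theorem pb_mono {Ω : Type} (P : FP Ω) {E E' : Ω → Prop} (h : ∀ ω ∈ P.S, E ω → E' ω) :
    pb P E ≤ pb P E' :=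
  P.E_mono fun ω hω => by
    by_cases h1 : E ω
    · rw [if_pos h1, if_pos (h ω hω h1)]
    · rw [if_neg h1]; split_ifs <;> norm_num

theorem pb_union {Ω J : Type} [Fintype J] (P : FP Ω) {E : Ω → Prop} (F : J → Ω → Prop) {p : ℝ}
    (h : ∀ ω, E ω → ∃ j, F j ω) (hp : ∀ j, pb P (F j) ≤ p) : pb P E ≤ Fintype.card J * p := by
  classical
  have h1 : pb P E ≤ ∑ j, pb P (F j) := by
    unfold pb
    rw [← FP.E_sum]
    refine P.E_mono fun ω _ => ?_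
    have h2 : ∀ j ∈ Finset.univ, (0 : ℝ) ≤ if F j ω then 1 else 0 :=
      fun j _ => by split_ifs <;> norm_num
    split_ifs with h3
    · obtain ⟨j, hj⟩ := h ω h3
      simpa [hj] using Finset.single_le_sum h2 (Finset.mem_univ j)
    · exact Finset.sum_nonneg h2
  refine h1.trans ((Finset.sum_le_sum fun j _ => hp j).trans (le_of_eq ?_))
  simp

theorem arith {p p₁ e κ R m G D H q a η N : ℝ} (h1 : 0 < p₁) (h2 : p₁ ≤ p) (he : 0 < e)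
    (he' : e ≤ 1) (hκ : 0 < κ) (hm0 : 0 ≤ m) (hR : 0 ≤ R) (hm : m ≤ R / G + 1) (hG0 : 0 < G)
    (hG : 12 ≤ e * κ * G) (hD : κ * R - m * lg ≤ D) (hH : H ≤ (1 - 2 * e) * D + e * κ / 4 * R)
    (hq : 4 * q * a ≤ p₁ * e * κ / 4) (hη : η ≤ p₁ * e * κ / 16 * R)
    (hb1 : 8 ≤ e * κ * R) (hb2 : 4 * p₁ + 50 * N < p₁ * e * κ / 8 * R)
    (h : p * ((1 - e) * D - (2 * m + 1) * lg) ≤ p * H + 4 * q * (a * R) + η + 10 * (N * 5)) :
    False := by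
  have l1 := lg_pos
  have l2 := lg_lt_one
  have s1 : R / G ≤ e * κ * R / 12 := by
    rw [div_le_div_iff₀ hG0 (by norm_num)]; nlinarith
  have s2 : m * lg ≤ m := mul_le_of_le_one_right hm0 l2.le
  have s3 : e * (m * lg) ≤ m * lg := mul_le_of_le_one_left (by positivity) he'
  have s4 : e * (κ * R - m * lg) ≤ e * D := mul_le_mul_of_nonneg_left hD he.le
  have s5 : e * κ * R / 2 - 4 ≤ (1 - e) * D - (2 * m + 1) * lg - H := by linarith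
  have s6 : p₁ * (e * κ * R / 2 - 4) ≤ p * ((1 - e) * D - (2 * m + 1) * lg - H) :=
    mul_le_mul h2 s5 (by linarith) (by linarith)
  have s7 : 4 * q * a * R ≤ p₁ * e * κ / 4 * R := mul_le_mul_of_nonneg_right hq hR
  have s8 : 0 ≤ p₁ * e * κ * R := by positivity
  linarith

end Pool.Agent.MP_5168f5_an.H29N
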