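import Pool.Agent.MP_5168f5_an.H17S.CND

/-! Kernels, products and conditionally independent gluing of finite probability spaces. -/

namespace Pool.Agent.MP_5168f5_an.H29N

open H19 H17S

variable {Ω Ω' α β γ δ : Type}

/-- A point of `P`, then a point of `K ω`. -/
noncomputable def bind (P : FP Ω) (K : Ω → FP Ω') : FP (Ω × Ω') where
  S := (P.S.sigma fun ω => (K ω).S).map (Equiv.sigmaEquivProd Ω Ω').toEmbedding
  p := fun x => P.p x.1 * (K x.1).p x.2
  pos := by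
    intro x hx
    simp only [Finset.mem_map, Finset.mem_sigma] at hx
    obtain ⟨y, hy, rfl⟩ := hx
    exact mul_pos (P.pos _ hy.1) ((K y.1).pos _ hy.2)
  sum_one := by
    rw [Finset.sum_map, Finset.sum_sigma, ← P.sum_one]
    refine Finset.sum_congr rfl fun ω _ => ?_
    simp only [Equiv.coe_toEmbedding, Equiv.sigmaEquivProd_apply]
    rw [← Finset.mul_sum, (K ω).sum_one, mul_one]

theorem mem_bind (P : FP Ω) (K : Ω → FP Ω') (x : Ω × Ω') :
    x ∈ (bind P K).S ↔ x.1 ∈ P.S ∧ x.2 ∈ (K x.1).S := by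
  simp only [bind, Finset.mem_map, Finset.mem_sigma]
  constructor
  · rintro ⟨y, hy, rfl⟩; exact hy
  · intro h; exact ⟨⟨x.1, x.2⟩, h, rfl⟩

theorem E_bind (P : FP Ω) (K : Ω → FP Ω') (F : Ω × Ω' → ℝ) :
    (bind P K).E F = P.E fun ω => (K ω).E fun b => F (ω, b) := by
  simp only [FP.E, bind]
  rw [Finset.sum_map, Finset.sum_sigma]
  refine Finset.sum_congr rfl fun ω _ => ?_
  simp only [Equiv.coe_toEmbedding, Equiv.sigmaEquivProd_apply]
  rw [Finset.mul_sum]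
  exact Finset.sum_congr rfl fun b _ => by ring

theorem E_bind_fst (P : FP Ω) (K : Ω → FP Ω') (F : Ω → ℝ) :
    (bind P K).E (fun x => F x.1) = P.E F := by
  rw [E_bind]
  exact P.E_congr fun ω _ => (K ω).E_const (F ω)

theorem ent_bind (P : FP Ω) (K : Ω → FP Ω') (G : Ω → β) (F : Ω → Ω' → α) (hK : Fn P K G)
    (hF : Fn P F G) :
    ch (bind P K) (fun x => F x.1 x.2) (fun x => G x.1) = P.E fun ω => hh (K ω) (F ω) := by
  classical
  have h1 : ∀ x ∈ (bind P K).S, (bind P K).pr (Setoid.ker fun y => (F y.1 y.2, G y.1)) x =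
      (K x.1).pr (Setoid.ker (F x.1)) x.2 * P.pr (Setoid.ker G) x.1 := by
    intro x hx
    rw [mem_bind] at hx
    unfold FP.pr
    rw [E_bind, ← P.E_mul]
    refine P.E_congr fun a ha => ?_
    by_cases h : G a = G x.1
    · rw [if_pos (show Setoid.ker G a x.1 from h), mul_one, hK a ha _ hx.1 h]
      refine (K x.1).E_congr fun b _ => ?_
      simp only [Setoid.ker_def, Prod.mk.injEq, h, and_true, hF a ha _ hx.1 h]
    · rw [if_neg (show ¬ Setoid.ker G a x.1 from h), mul_zero]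
      refine Eq.trans ((K a).E_congr fun b _ => ?_) ((K a).E_const 0)
      simp only [Setoid.ker_def, Prod.mk.injEq, h, and_false, if_false]
  have h2 : hh (bind P K) (fun x => G x.1) = hh P G :=
    hh_law _ _ fun F => E_bind_fst P K fun ω => F (G ω)
  unfold ch
  rw [h2]
  unfold hh FP.H
  rw [(bind P K).E_congr fun x hx => by rw [h1 x hx], E_bind, ← P.E_sub]
  refine P.E_congr fun ω hω => ?_
  have h3 : (K ω).E (fun b => -Real.log ((K ω).pr (Setoid.ker (F ω)) b * P.pr (Setoid.ker G) ω)) =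
      (K ω).E fun b => -Real.log ((K ω).pr (Setoid.ker (F ω)) b) +
        -Real.log (P.pr (Setoid.ker G) ω) :=
    (K ω).E_congr fun b hb => by
      rw [Real.log_mul ((K ω).pr_pos _ hb).ne' (P.pr_pos _ hω).ne']; ring
  rw [h3, FP.E_add, FP.E_const]
  ring

/-- The product space. -/
noncomputable def prd (P : FP Ω) (Q : FP Ω') : FP (Ω × Ω') := bind P fun _ => Q

theorem mem_prd (P : FP Ω) (Q : FP Ω') (x : Ω × Ω') :
    x ∈ (prd P Q).S ↔ x.1 ∈ P.S ∧ x.2 ∈ Q.S := mem_bind P _ x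

theorem E_prd (P : FP Ω) (Q : FP Ω') (F : Ω × Ω' → ℝ) :
    (prd P Q).E F = P.E fun a => Q.E fun b => F (a, b) := E_bind P _ F

theorem E_swap (P : FP Ω) (Q : FP Ω') (F : Ω → Ω' → ℝ) :
    P.E (fun a => Q.E fun b => F a b) = Q.E fun b => P.E fun a => F a b := by
  simp only [FP.E, Finset.mul_sum]
  rw [Finset.sum_comm]
  exact Finset.sum_congr rfl fun _ _ => Finset.sum_congr rfl fun _ _ => by ring

theorem E_prd_fst (P : FP Ω) (Q : FP Ω') (F : Ω → ℝ) : (prd P Q).E (fun x => F x.1) = P.E F :=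
  E_bind_fst P _ F

theorem E_prd_snd (P : FP Ω) (Q : FP Ω') (F : Ω' → ℝ) :
    (prd P Q).E (fun x => F x.2) = Q.E F := by
  rw [E_prd]; exact P.E_const (Q.E F)

theorem hh_prd_fst (P : FP Ω) (Q : FP Ω') (f : Ω → α) :
    hh (prd P Q) (fun x => f x.1) = hh P f :=
  hh_law _ _ fun F => E_prd_fst P Q fun ω => F (f ω)

theorem hh_prd_snd (P : FP Ω) (Q : FP Ω') (g : Ω' → α) :
    hh (prd P Q) (fun x => g x.2) = hh Q g :=
  hh_law _ _ fun F => E_prd_snd P Q fun ω => F (g ω)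

theorem hh_swap (P : FP Ω) (f : Ω → α) (g : Ω → β) :
    hh P (fun x => (f x, g x)) = hh P fun x => (g x, f x) :=
  hh_congr ((Fn.snd g f).pair (Fn.fst g f)) ((Fn.snd f g).pair (Fn.fst f g))

theorem hh_prd (P : FP Ω) (Q : FP Ω') (f : Ω → α) (g : Ω' → β) :
    hh (prd P Q) (fun x => (f x.1, g x.2)) = hh P f + hh Q g := by
  have h := ent_bind P (fun _ => Q) f (fun _ => g) (fun _ _ _ _ _ => rfl) fun _ _ _ _ _ => rfl
  rw [FP.E_const] at h
  have h2 := hh_prd_fst P Q f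
  have h3 := hh_swap (prd P Q) (fun x => f x.1) fun x => g x.2
  unfold ch at h
  unfold prd at *
  linarith

open Classical in
/-- Probability that `W` takes the value `v`. -/
noncomputable def prv (Q : FP Ω) (W : Ω → α) (v : α) : ℝ := Q.E fun x => if W x = v then 1 else 0

theorem prv_eq (Q : FP Ω) (W : Ω → α) (a : Ω) : prv Q W (W a) = Q.pr (Setoid.ker W) a :=
  Q.E_congr fun _ _ => rfl

theorem prv_pos (Q : FP Ω) (W : Ω → α) {a : Ω} (ha : a ∈ Q.S) : 0 < prv Q W (W a) := by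
  rw [prv_eq]; exact Q.pr_pos _ ha

theorem hh_eq (Q : FP Ω) (W : Ω → α) : hh Q W = Q.E fun x => -Real.log (prv Q W (W x)) := by
  simp only [prv_eq]; rfl

/-- Entropy is at most the cross entropy with any other law. -/
theorem gibbs_law (P : FP Ω) (Y : Ω → α) (Q : FP Ω') (W : Ω' → α)
    (h : ∀ ω ∈ P.S, 0 < prv Q W (Y ω)) : hh P Y ≤ P.E fun ω => -Real.log (prv Q W (Y ω)) := by
  classical
  refine P.gibbs _ _ h ?_
  have e : P.E (fun ω => prv Q W (Y ω) / P.pr (Setoid.ker Y) ω) =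
      P.E fun ω => Q.E fun b => if W b = Y ω then 1 / P.pr (Setoid.ker Y) ω else 0 := by
    refine P.E_congr fun ω _ => ?_
    rw [div_eq_inv_mul, prv, ← Q.E_mul]
    exact Q.E_congr fun b _ => by split_ifs <;> simp
  rw [e, E_swap]
  refine le_trans (Q.E_mono fun b _ => ?_) (Q.E_const 1).le
  have := P.class_sum (Setoid.ker Y) (fun ω => W b = Y ω) fun x _ y _ h1 h2 => h1.symm.trans h2
  exact le_trans (le_of_eq (P.E_congr fun ω _ => by congr)) this

/-- Two variables have the same law. -/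
def Law (P : FP Ω) (φ : Ω → β) (Q : FP Ω') (ψ : Ω' → β) : Prop :=
  ∀ K : β → ℝ, P.E (fun x => K (φ x)) = Q.E fun x => K (ψ x)

theorem Law.symm {P : FP Ω} {φ : Ω → β} {Q : FP Ω'} {ψ : Ω' → β} (h : Law P φ Q ψ) :
    Law Q ψ P φ := fun K => (h K).symm

theorem Law.trans {Ω'' : Type} {P : FP Ω} {φ : Ω → β} {Q : FP Ω'} {ψ : Ω' → β} {R : FP Ω''}
    {χ : Ω'' → β} (h : Law P φ Q ψ) (h' : Law Q ψ R χ) : Law P φ R χ :=
  fun K => (h K).trans (h' K)

theorem Law.ex {P : FP Ω} {φ : Ω → β} {Q : FP Ω'} {ψ : Ω' → β} (h : Law P φ Q ψ) {a : Ω}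
    (ha : a ∈ P.S) : ∃ b ∈ Q.S, ψ b = φ a := by
  classical
  by_contra hn
  push Not at hn
  have h1 := prv_pos P φ ha
  have h2 : prv P φ (φ a) = prv Q ψ (φ a) := h fun v => if v = φ a then 1 else 0
  have h3 : prv Q ψ (φ a) = 0 :=
    (Q.E_congr fun b hb => if_neg (hn b hb)).trans (Q.E_const 0)
  linarith

theorem Law.ch {P : FP Ω} {φ : Ω → β} {Q : FP Ω'} {ψ : Ω' → β} (h : Law P φ Q ψ) (f : β → α)
    (g : β → γ) : ch P (fun x => f (φ x)) (fun x => g (φ x)) =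
      ch Q (fun x => f (ψ x)) fun x => g (ψ x) := ch_law φ ψ h f g

open Classical in
/-- The conditional law given the value `v` of `φ`. -/
noncomputable def cv (P : FP Ω) (φ : Ω → β) (v : β) : FP Ω :=
  if h : ∃ a ∈ P.S, φ a = v then cnd P φ h.choose else P

theorem cv_eq (P : FP Ω) (φ : Ω → β) {a : Ω} (ha : a ∈ P.S) : cv P φ (φ a) = cnd P φ a := by
  have h : ∃ b ∈ P.S, φ b = φ a := ⟨a, ha, rfl⟩
  unfold cv
  rw [dif_pos h]
  exact CND.cong P φ h.choose_spec.1 ha h.choose_spec.2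

theorem mem_cv (P : FP Ω) (φ : Ω → β) {v : β} (h : ∃ a ∈ P.S, φ a = v) (b : Ω) :
    b ∈ (cv P φ v).S ↔ b ∈ P.S ∧ φ b = v := by
  obtain ⟨a, ha, rfl⟩ := h
  rw [cv_eq P φ ha, CND.mem P φ ha]

theorem E_cv (P : FP Ω) (φ : Ω → β) (F : β → Ω → ℝ) :
    P.E (fun ω => (cv P φ (φ ω)).E (F (φ ω))) = P.E fun ω => F (φ ω) ω := by
  rw [CND.exp P φ (fun ω => F (φ ω)) fun a _ b _ e => by simp only [e]]
  exact P.E_congr fun ω hω => by rw [cv_eq P φ hω]

theorem ent_cv (P : FP Ω) (φ : Ω → β) (F : β → Ω → α) :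
    P.E (fun ω => hh (cv P φ (φ ω)) (F (φ ω))) = ch P (fun ω => F (φ ω) ω) φ := by
  rw [CND.ent P φ (fun ω => F (φ ω)) fun a _ b _ e => by simp only [e]]
  exact P.E_congr fun ω hω => by rw [cv_eq P φ hω]

theorem ch_cv (P : FP Ω) (φ : Ω → β) (F : β → Ω → α) (G : β → Ω → γ) :
    P.E (fun ω => ch (cv P φ (φ ω)) (F (φ ω)) (G (φ ω))) =
      ch P (fun ω => F (φ ω) ω) fun ω => (G (φ ω) ω, φ ω) := by
  have h1 := ent_cv P φ fun v ω => (F v ω, G v ω)
  have h2 := ent_cv P φ G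
  have h3 := ch_chain (P := P) (fun ω => G (φ ω) ω) (fun ω => F (φ ω) ω) φ
  have h4 : ch P (fun ω => (G (φ ω) ω, F (φ ω) ω)) φ = ch P (fun ω => (F (φ ω) ω, G (φ ω) ω)) φ :=
    le_antisymm (ch_mono fun a _ b _ e => by simp only [Prod.mk.injEq] at e ⊢; tauto)
      (ch_mono fun a _ b _ e => by simp only [Prod.mk.injEq] at e ⊢; tauto)
  have h5 : P.E (fun ω => ch (cv P φ (φ ω)) (F (φ ω)) (G (φ ω))) =
      P.E (fun ω => hh (cv P φ (φ ω)) fun a => (F (φ ω) a, G (φ ω) a)) -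
        P.E fun ω => hh (cv P φ (φ ω)) (G (φ ω)) := P.E_sub _ _
  linarith

/-- A point of `P` and a point of `Q`, independent given the common value of `φ` and `ψ`. -/
noncomputable def glue (P : FP Ω) (φ : Ω → β) (Q : FP Ω') (ψ : Ω' → β) : FP (Ω × Ω × Ω') :=
  bind P fun ω => prd (cv P φ (φ ω)) (cv Q ψ (φ ω))

section Glue

variable {P : FP Ω} {φ : Ω → β} {Q : FP Ω'} {ψ : Ω' → β}

theorem mem_glue (h : Law P φ Q ψ) {x : Ω × Ω × Ω'} (hx : x ∈ (glue P φ Q ψ).S) :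
    x.2.1 ∈ P.S ∧ x.2.2 ∈ Q.S ∧ φ x.2.1 = φ x.1 ∧ ψ x.2.2 = φ x.1 := by
  unfold glue at hx
  rw [mem_bind] at hx
  obtain ⟨h1, h2⟩ := hx
  rw [mem_prd, mem_cv P φ ⟨_, h1, rfl⟩, mem_cv Q ψ (h.ex h1)] at h2
  tauto

theorem glue_fst : Law (glue P φ Q ψ) (fun x => x.2.1) P id := by
  intro K
  unfold glue
  rw [E_bind]
  simp only [E_prd_fst]
  exact E_cv P φ fun _ => K

theorem glue_snd (h : Law P φ Q ψ) : Law (glue P φ Q ψ) (fun x => x.2.2) Q id := by
  intro K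
  unfold glue
  rw [E_bind]
  simp only [E_prd_snd]
  exact (h fun v => (cv Q ψ v).E K).trans (E_cv Q ψ fun _ => K)

theorem ent_glue (F : β → Ω × Ω' → α) :
    ch (glue P φ Q ψ) (fun x => F (φ x.1) x.2) (fun x => φ x.1) =
      P.E fun ω => hh (prd (cv P φ (φ ω)) (cv Q ψ (φ ω))) (F (φ ω)) :=
  ent_bind P _ φ (fun ω => F (φ ω)) (fun a _ b _ e => by simp only [e])
    fun a _ b _ e => by simp only [e]

theorem glue_ind (h : Law P φ Q ψ) (f : Ω → α) (g : Ω' → γ) :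
    ch (glue P φ Q ψ) (fun x => (f x.2.1, g x.2.2)) (fun x => φ x.1) = ch P f φ + ch Q g ψ := by
  rw [ent_glue fun _ y => (f y.1, g y.2)]
  simp only [hh_prd]
  rw [FP.E_add, ent_cv P φ fun _ => f, h fun v => hh (cv Q ψ v) g, ent_cv Q ψ fun _ => g]

theorem glue_c1 (h : Law P φ Q ψ) (f : Ω → α) :
    ch (glue P φ Q ψ) (fun x => f x.2.1) (fun x => φ x.1) = ch P f φ := by
  refine Eq.trans ?_ ((glue_fst (P := P) (φ := φ) (Q := Q) (ψ := ψ)).ch f φ)
  exact le_antisymm (ch_anti fun a ha b hb e => by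
      rw [(mem_glue h ha).2.2.1, (mem_glue h hb).2.2.1, e])
    (ch_anti fun a ha b hb e => by
      rw [← (mem_glue h ha).2.2.1, ← (mem_glue h hb).2.2.1, e])

theorem glue_c2 (h : Law P φ Q ψ) (g : Ω' → α) :
    ch (glue P φ Q ψ) (fun x => g x.2.2) (fun x => φ x.1) = ch Q g ψ := by
  refine Eq.trans ?_ ((glue_snd h).ch g ψ)
  exact le_antisymm (ch_anti fun a ha b hb e => by
      rw [(mem_glue h ha).2.2.2, (mem_glue h hb).2.2.2, e])
    (ch_anti fun a ha b hb e => by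
      rw [← (mem_glue h ha).2.2.2, ← (mem_glue h hb).2.2.2, e])

/-- Markov property: the second point sees the first only through the common value. -/
theorem glue_mkv2 (h : Law P φ Q ψ) (g : Ω' → α) (G : Ω → γ) (hG : Fn P φ G) :
    ch (glue P φ Q ψ) (fun x => g x.2.2) (fun x => G x.2.1) = ch Q g ψ := by
  have h1 := glue_ind h G g
  have h2 := ch_chain (P := glue P φ Q ψ) (fun x => G x.2.1) (fun x => g x.2.2) fun x => φ x.1
  have h3 := glue_c1 h G
  have h4 : ch (glue P φ Q ψ) (fun x => g x.2.2) (fun x => G x.2.1) =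
      ch (glue P φ Q ψ) (fun x => g x.2.2) fun x => (G x.2.1, φ x.1) :=
    le_antisymm (ch_anti ((Fn.rfl _).pair fun a ha b hb e => by
      rw [← (mem_glue h ha).2.2.1, ← (mem_glue h hb).2.2.1]
      exact hG _ (mem_glue h ha).1 _ (mem_glue h hb).1 e)) (ch_anti (Fn.fst _ _))
  linarith

theorem glue_mkv1 (h : Law P φ Q ψ) (f : Ω → α) (G : Ω' → γ) (hG : Fn Q ψ G) :
    ch (glue P φ Q ψ) (fun x => f x.2.1) (fun x => G x.2.2) = ch P f φ := by
  have h1 := glue_ind h f G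
  have h2 := ch_symm (P := glue P φ Q ψ) (fun x => G x.2.2) (fun x => f x.2.1) fun x => φ x.1
  have h2' := ch_chain (P := glue P φ Q ψ) (fun x => f x.2.1) (fun x => G x.2.2) fun x => φ x.1
  have h3 := glue_c2 h G
  have h3' := glue_c1 h f
  have h4 : ch (glue P φ Q ψ) (fun x => f x.2.1) (fun x => G x.2.2) =
      ch (glue P φ Q ψ) (fun x => f x.2.1) fun x => (G x.2.2, φ x.1) :=
    le_antisymm (ch_anti ((Fn.rfl _).pair fun a ha b hb e => by
      rw [← (mem_glue h ha).2.2.2, ← (mem_glue h hb).2.2.2]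
      exact hG _ (mem_glue h ha).2.1 _ (mem_glue h hb).2.1 e)) (ch_anti (Fn.fst _ _))
  linarith

end Glue

end Pool.Agent.MP_5168f5_an.H29N
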