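import Pool.Agent.MP_5168f5_an.H29N.Glue

/-! Entropy cost of random translations in an abelian group. -/

namespace Pool.Agent.MP_5168f5_an.H29N

open H19 H17S Pointwise

variable {Ω Ω' ι α β γ G : Type} [AddCommGroup G]

theorem hh_subadd (P : FP Ω) (f : Ω → α) (g : Ω → β) :
    hh P (fun x => (f x, g x)) ≤ hh P f + hh P g := by
  have h := hh_submod (P := P) (A := f) (B := g) (M := fun _ => ()) (fun _ _ _ _ _ => rfl)
    fun _ _ _ _ _ => rfl
  rwa [hh_unit, add_zero] at h

theorem ch_prd (P : FP Ω) (Q : FP Ω') (f : Ω → α) (g : Ω' → β) :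
    ch (prd P Q) (fun x => f x.1) (fun x => g x.2) = hh P f := by
  unfold ch
  rw [hh_prd, hh_prd_snd]; ring

theorem hh_unif (T : Finset ι) (hT : T.Nonempty) :
    hh (FP.unif T hT) (fun t => t) = Real.log T.card := by
  rw [← FP.H_unif T hT]
  exact (FP.unif T hT).H_congr fun a _ b _ => by simp [Setoid.ker_def]

/-- Entropy added to `X` by the independent translation `s`. -/
noncomputable def cost (P : FP Ω) (X : Ω → G) (Q : FP ι) (s : ι → G) : ℝ :=
  hh (prd P Q) (fun x => X x.1 + s x.2) - hh P X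

/-- Entropy added to `X` by subtracting the independent variable `U`. -/
noncomputable def dif (P : FP Ω) (X : Ω → G) (Q : FP Ω') (U : Ω' → G) : ℝ :=
  hh (prd P Q) (fun x => X x.1 - U x.2) - hh P X

theorem cost_congr (P : FP Ω) (X : Ω → G) (Q : FP ι) {s s' : ι → G} (h : ∀ t ∈ Q.S, s t = s' t) :
    cost P X Q s = cost P X Q s' := by
  unfold cost
  congr 1
  refine hh_congr (fun a ha b hb e => ?_) fun a ha b hb e => ?_
  · rw [h _ ((mem_prd _ _ _).1 ha).2, h _ ((mem_prd _ _ _).1 hb).2]; exact e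
  · rw [← h _ ((mem_prd _ _ _).1 ha).2, ← h _ ((mem_prd _ _ _).1 hb).2]; exact e

theorem cost_zero (P : FP Ω) (X : Ω → G) (Q : FP ι) : cost P X Q (fun _ => 0) = 0 := by
  unfold cost
  simp only [add_zero, hh_prd_fst, sub_self]

theorem cost_add (P : FP Ω) (X : Ω → G) (Q : FP ι) (s s' : ι → G) :
    cost P X Q (fun t => s t + s' t) ≤ cost P X Q s + cost P X Q s' + dif P X P X := by
  have e1 := hh_prd_fst (prd P Q) P fun x => X x.1 + (s x.2 + s' x.2)
  have e2 := hh_prd_fst (prd P Q) P fun x => X x.1 + s x.2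
  have e3 : hh (prd (prd P Q) P) (fun x => X x.2 + s' x.1.2) =
      hh (prd P Q) fun x => X x.1 + s' x.2 := by
    refine hh_law _ _ fun F => ?_
    simp only [E_prd, FP.E_const]
    exact E_swap Q P _
  have e4 : hh (prd (prd P Q) P) (fun x => X x.1.1 - X x.2) =
      hh (prd P P) fun x => X x.1 - X x.2 := by
    refine hh_law _ _ fun F => ?_
    simp only [E_prd, FP.E_const]
  have e5 := hh_prd (prd P Q) P (fun x => (X x.1, x.2)) X
  have e6 := hh_prd P Q X fun t => t
  have e7 := hh_prd_fst (prd P Q) P fun x => (X x.1, x.2)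
  have e8 := hh_prd_snd (prd P Q) P X
  have e9 : hh (prd (prd P Q) P) (fun x => x.1.2) = hh Q fun t => t :=
    (hh_prd_fst (prd P Q) P fun x => x.2).trans (hh_prd_snd P Q fun t => t)
  have r1 := hh_submod (P := prd (prd P Q) P)
    (A := fun x => (X x.1.1 + s x.1.2 - X x.2, X x.2 + s' x.1.2))
    (B := fun x => (X x.1.1, x.1.2)) (M := fun x => X x.1.1 + (s x.1.2 + s' x.1.2))
    (fun a _ b _ e => by
      simp only [Prod.mk.injEq] at e ⊢
      have := congrArg₂ (· + ·) e.1 e.2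
      have k : ∀ u v w z : G, u + (v + z) = u + v - w + (w + z) := fun u v w z => by abel
      exact (k _ _ (X a.2) _).trans (this.trans (k _ _ (X b.2) _).symm))
    fun a _ b _ e => by
      simp only [Prod.mk.injEq] at e ⊢
      rw [e.1, e.2]
  have r2 : hh (prd (prd P Q) P) (fun x => ((X x.1.1, x.1.2), X x.2)) ≤ hh (prd (prd P Q) P)
      fun x => ((X x.1.1 + s x.1.2 - X x.2, X x.2 + s' x.1.2), (X x.1.1, x.1.2)) :=
    hh_mono fun a _ b _ e => by
      simp only [Prod.mk.injEq] at e ⊢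
      refine ⟨e.2, ?_⟩
      have := e.1.2
      rw [e.2.2] at this
      exact add_right_cancel this
  have r3 := hh_subadd (prd (prd P Q) P) (fun x => X x.1.1 + s x.1.2 - X x.2)
    fun x => X x.2 + s' x.1.2
  have k1 := hh_submod (P := prd (prd P Q) P)
    (A := fun x => (X x.1.1 + s x.1.2, X x.2))
    (B := fun x => (X x.1.1 - X x.2, x.1.2)) (M := fun x => X x.1.1 + s x.1.2 - X x.2)
    (fun a _ b _ e => by
      simp only [Prod.mk.injEq] at e ⊢
      rw [e.1, e.2])
    fun a _ b _ e => by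
      simp only [Prod.mk.injEq] at e ⊢
      rw [add_sub_right_comm, e.1, e.2, add_sub_right_comm]
  have k2 : hh (prd (prd P Q) P) (fun x => ((X x.1.1, x.1.2), X x.2)) ≤ hh (prd (prd P Q) P)
      fun x => ((X x.1.1 + s x.1.2, X x.2), (X x.1.1 - X x.2, x.1.2)) :=
    hh_mono fun a _ b _ e => by
      simp only [Prod.mk.injEq] at e ⊢
      refine ⟨⟨?_, e.2.2⟩, e.1.2⟩
      have := e.1.1
      rw [e.2.2] at this
      exact add_right_cancel this
  have k3 := hh_subadd (prd (prd P Q) P) (fun x => X x.1.1 + s x.1.2) fun x => X x.2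
  have k4 := hh_subadd (prd (prd P Q) P) (fun x => X x.1.1 - X x.2) fun x => x.1.2
  unfold cost dif
  linarith

/-- Cross entropy excess of `X - u` against the law of `X - U`. -/
noncomputable def kl (P : FP Ω) (X : Ω → G) (Q : FP Ω') (U : Ω' → G) (u : G) : ℝ :=
  P.E (fun a => -Real.log (prv (prd P Q) (fun x => X x.1 - U x.2) (X a - u))) - hh P X

theorem kl_nonneg (P : FP Ω) (X : Ω → G) (Q : FP Ω') (U : Ω' → G) {b : Ω'} (hb : b ∈ Q.S) :
    0 ≤ kl P X Q U (U b) := by
  have h := gibbs_law P (fun a => X a - U b) (prd P Q) (fun x => X x.1 - U x.2) fun a ha =>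
    prv_pos (prd P Q) (fun x => X x.1 - U x.2) (a := (a, b)) ((mem_prd _ _ _).2 ⟨ha, hb⟩)
  have e : hh P X ≤ hh P fun a => X a - U b :=
    hh_mono fun a _ a' _ e => sub_left_injective e
  unfold kl
  linarith

theorem E_kl (P : FP Ω) (X : Ω → G) (Q : FP Ω') (U : Ω' → G) :
    Q.E (fun b => kl P X Q U (U b)) = dif P X Q U := by
  unfold kl dif
  rw [FP.E_sub, FP.E_const, hh_eq (prd P Q), E_prd, E_swap]

theorem cost_le (P : FP Ω) (X : Ω → G) (Q : FP Ω') (U : Ω' → G) (R : FP ι) (s : ι → G) {ε : ℝ}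
    (h : ∀ t ∈ R.S, ∃ b ∈ Q.S, s t = -U b ∧ kl P X Q U (U b) ≤ ε) : cost P X R s ≤ ε := by
  have h1 := gibbs_law (prd P R) (fun x => X x.1 + s x.2) (prd P Q) (fun x => X x.1 - U x.2)
    fun x hx => by
      rw [mem_prd] at hx
      obtain ⟨b, hb, e, -⟩ := h _ hx.2
      rw [e, ← sub_eq_add_neg]
      exact prv_pos (prd P Q) (fun x => X x.1 - U x.2) (a := (x.1, b))
        ((mem_prd _ _ _).2 ⟨hx.1, hb⟩)
  rw [E_prd, E_swap] at h1
  have h2 : R.E (fun t => P.E fun a =>
      -Real.log (prv (prd P Q) (fun x => X x.1 - U x.2) (X a + s t))) ≤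
      R.E fun _ => ε + hh P X := by
    refine R.E_mono fun t ht => ?_
    obtain ⟨b, -, e, hk⟩ := h t ht
    simp only [e, ← sub_eq_add_neg]
    unfold kl at hk
    linarith
  rw [FP.E_const] at h2
  unfold cost
  linarith

theorem cost_lev [DecidableEq G] (P : FP Ω) (X : Ω → G) (R : FP ι) (U : Finset G) {ε : ℝ}
    (h : ∀ s : ι → G, (∀ t ∈ R.S, s t ∈ U) → cost P X R s ≤ ε ∧ dif P X P X ≤ ε) (q : ℕ) :
    ∀ s : ι → G, (∀ t ∈ R.S, s t ∈ q • U) → cost P X R s ≤ 2 * q * ε := by
  induction q with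
  | zero =>
    intro s hs
    rw [cost_congr P X R (s' := fun _ => 0) fun t ht => by simpa using hs t ht, cost_zero]
    simp
  | succ q ih =>
    intro s hs
    have h1 : ∀ t, ∃ a b : G, t ∈ R.S → a ∈ q • U ∧ b ∈ U ∧ a + b = s t := by
      intro t
      by_cases ht : t ∈ R.S
      · have := hs t ht
        rw [succ_nsmul, Finset.mem_add] at this
        obtain ⟨a, ha, b, hb, e⟩ := this
        exact ⟨a, b, fun _ => ⟨ha, hb, e⟩⟩
      · exact ⟨0, 0, fun h => absurd h ht⟩
    choose a b hab using h1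
    have h2 := cost_add P X R a b
    have h3 := ih a fun t ht => (hab t ht).1
    have h4 := h b fun t ht => (hab t ht).2.1
    rw [cost_congr P X R (s' := s) fun t ht => (hab t ht).2.2] at h2
    push_cast
    linarith [h4.1, h4.2]

/-- A translation changes the value of `f` in at most `C` ways. -/
def QI (f : G → β) (C : ℝ) : Prop :=
  ∀ (s : G) (b : β), ∃ W : Finset β, (W.card : ℝ) ≤ C ∧ ∀ y, f y = b → f (y + s) ∈ W

/-- Many differences `s t - s' t` of elements of `q • U` that `f` separates and `g` ignores. -/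
structure Gr [DecidableEq G] (U : Finset G) (q : ℕ) (C : ℝ) (f : G → β) (g : G → γ) (l : ℝ)
    (T : Finset ι) (s s' : ι → G) : Prop where
  ne : T.Nonempty
  big : l ≤ Real.log T.card
  lev : ∀ t ∈ T, s t ∈ q • U ∧ s' t ∈ q • U
  sep : ∀ b b' : β, ∃ W : Finset ι, (W.card : ℝ) ≤ C ∧
    ∀ y, ∀ t ∈ T, f (y + s t) = b → f (y + s' t) = b' → t ∈ W
  inv : ∀ c : γ, ∃ W : Finset γ, (W.card : ℝ) ≤ C ∧
    ∀ y, ∀ t ∈ T, g (y + s' t) = c → g (y + s t) ∈ W
  sub : ∀ b : β, ∃ W : Finset γ, (W.card : ℝ) ≤ C ∧ ∀ y, f y = b → g y ∈ W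

/-- Entropy form of `QI`: the shift is a function of the condition. -/
theorem ch_qi {P : FP Ω} {f : G → β} {C : ℝ} (h : QI f C) (Y s : Ω → G) (L : Ω → α)
    (h1 : Fn P (fun x => f (Y x)) L) (h2 : Fn P s L) :
    ch P (fun x => f (Y x + s x)) L ≤ Real.log C :=
  ch_det fun a ha => by
    obtain ⟨W, hW, hW'⟩ := h (s a) (f (Y a))
    refine ⟨W, hW, fun b hb e => ?_⟩
    rw [h2 b hb a ha e]
    exact hW' _ (h1 b hb a ha e)

theorem coarse (P : FP Ω) (X : Ω → G) (R : FP ι) (s : ι → G) {f : G → β} {C : ℝ} (h : QI f C) :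
    hh (prd P R) (fun x => f (X x.1 + s x.2)) ≤
      hh P (fun a => f (X a)) + cost P X R s + Real.log C := by
  have e1 := ch_info' (P := prd P R) (ξ := fun x => X x.1 + s x.2) (L := fun x => x.2)
    (G := fun _ => ()) (f := fun x => f (X x.1 + s x.2)) (fun _ _ _ _ _ => rfl)
    ((Fn.comp f _).left _)
  rw [ch_unit, ch_unit] at e1
  have e2 : ch (prd P R) (fun x => X x.1) (fun x => x.2) ≤
      ch (prd P R) (fun x => X x.1 + s x.2) fun x => x.2 :=
    ch_mono fun a _ b _ e => by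
      simp only [Prod.mk.injEq] at e
      have := e.1
      rw [e.2] at this
      exact add_right_cancel this
  have e3 := ch_prd P R X fun t => t
  have e4 := ch_tri (P := prd P R) (fun x => f (X x.1 + s x.2)) (fun x => f (X x.1)) fun x => x.2
  have e5 := ch_prd P R (fun a => f (X a)) fun t => t
  have e6 := ch_qi (P := prd P R) h (fun x => X x.1) (fun x => s x.2)
    (fun x => (f (X x.1), x.2)) (Fn.fst _ _) ((Fn.comp s fun x : Ω × ι => x.2).right _)
  unfold cost
  linarith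

theorem grain [DecidableEq G] (P : FP Ω) (X : Ω → G) {U : Finset G} {q : ℕ} {C l ε : ℝ}
    {f : G → β} {g : G → γ} {T : Finset ι} {s s' : ι → G} (hf : QI f C) (hg : QI g C)
    (h : Gr U q C f g l T s s')
    (hU : ∀ (R : FP ι) (r : ι → G), (∀ t ∈ R.S, r t ∈ U) → cost P X R r ≤ ε ∧ dif P X P X ≤ ε) :
    l ≤ ch P (fun a => f (X a)) (fun a => g (X a)) + 4 * q * ε + 8 * Real.log C := by
  set R := FP.unif T h.ne with hR
  have hS : ∀ x ∈ (prd P R).S, x.2 ∈ T := fun x hx => ((mem_prd _ _ _).1 hx).2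
  have c1 := cost_lev P X R U (hU R) q s fun t ht => (h.lev t ht).1
  have c2 := cost_lev P X R U (hU R) q s' fun t ht => (h.lev t ht).2
  have c3 := coarse P X R s hf
  have c4 := coarse P X R s' hf
  have a1 := hh_prd P R (fun a => f (X a)) fun t => t
  have a2 : hh R (fun t => t) = Real.log T.card := hh_unif T h.ne
  have b1 := ch_tri' (P := prd P R) (fun x => (f (X x.1), x.2)) (fun _ => ())
    fun x => (f (X x.1 + s x.2), f (X x.1 + s' x.2))
  rw [ch_unit, ch_unit] at b1
  have b2 := ch_tri (P := prd P R) (fun x => (f (X x.1), x.2))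
    (fun x => x.2) fun x => (f (X x.1 + s x.2), f (X x.1 + s' x.2))
  have b3 : ch (prd P R) (fun x => x.2) (fun x => (f (X x.1 + s x.2), f (X x.1 + s' x.2))) ≤
      Real.log C := ch_det fun a _ => by
    obtain ⟨W, hW, hW'⟩ := h.sep (f (X a.1 + s a.2)) (f (X a.1 + s' a.2))
    exact ⟨W, hW, fun b hb e => hW' _ _ (hS b hb) (congrArg Prod.fst e) (congrArg Prod.snd e)⟩
  have b4 : ch (prd P R) (fun x => (f (X x.1), x.2))
      (fun x => (x.2, f (X x.1 + s x.2), f (X x.1 + s' x.2))) ≤ Real.log C := by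
    refine le_trans (ch_mono ?_) (ch_qi (P := prd P R) hf (fun x => X x.1 + s x.2)
      (fun x => -s x.2) _ ((Fn.fst _ _).right _) ((Fn.comp (fun t => -s t) _).left _))
    intro a _ b _ e
    simp only [Prod.mk.injEq, add_neg_cancel_right] at e ⊢
    tauto
  have d1 := hh_submod (P := prd P R) (A := fun x => (g (X x.1 + s x.2), f (X x.1 + s x.2)))
    (B := fun x => (g (X x.1 + s x.2), f (X x.1 + s' x.2))) (M := fun x => g (X x.1 + s x.2))
    (Fn.fst _ _) (Fn.fst _ _)
  have d2 : hh (prd P R) (fun x => (f (X x.1 + s x.2), f (X x.1 + s' x.2))) ≤ hh (prd P R)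
      fun x => ((g (X x.1 + s x.2), f (X x.1 + s x.2)), g (X x.1 + s x.2), f (X x.1 + s' x.2)) :=
    hh_mono fun a _ b _ e => by simp only [Prod.mk.injEq] at e ⊢; tauto
  have sb : ∀ r : ι → G, ch (prd P R) (fun x => g (X x.1 + r x.2)) (fun x => f (X x.1 + r x.2)) ≤
      Real.log C := fun r => ch_det fun a _ => by
    obtain ⟨W, hW, hW'⟩ := h.sub (f (X a.1 + r a.2))
    exact ⟨W, hW, fun b _ e => hW' _ e⟩
  have d3 := sb s
  have d4 := sb s'
  have d5 : ch (prd P R) (fun x => g (X x.1 + s x.2)) (fun x => g (X x.1 + s' x.2)) ≤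
      Real.log C := ch_det fun a _ => by
    obtain ⟨W, hW, hW'⟩ := h.inv (g (X a.1 + s' a.2))
    exact ⟨W, hW, fun b hb e => hW' _ _ (hS b hb) e⟩
  have d6 := ch_tri' (P := prd P R) (fun x => g (X x.1 + s x.2)) (fun x => f (X x.1 + s' x.2))
    fun x => g (X x.1 + s' x.2)
  have g1 := ch_prd P R (fun a => g (X a)) fun t => t
  have g2 := ch_tri (P := prd P R) (fun x => g (X x.1)) (fun x => g (X x.1 + s x.2)) fun x => x.2
  have g3 := ch_le_hh (P := prd P R) (fun x => g (X x.1 + s x.2)) fun x => x.2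
  have g4 : ch (prd P R) (fun x => g (X x.1)) (fun x => (g (X x.1 + s x.2), x.2)) ≤
      Real.log C := by
    refine le_trans (ch_mono ?_) (ch_qi (P := prd P R) hg (fun x => X x.1 + s x.2)
      (fun x => -s x.2) _ (Fn.fst _ _) ((Fn.comp (fun t => -s t) _).right _))
    intro a _ b _ e
    simp only [Prod.mk.injEq, add_neg_cancel_right] at e ⊢
    tauto
  have z : hh P (fun a => f (X a)) ≤ hh P fun a => (f (X a), g (X a)) := hh_mono (Fn.fst _ _)
  have hb := h.big
  unfold ch at d3 d6 ⊢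
  unfold ch at d4 d5
  linarith

end Pool.Agent.MP_5168f5_an.H29N
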