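import Pool.Agent.MP_5168f5_an.H29N.Noise

/-! The set of cheap translations and the transfer to zero information side data. -/

namespace Pool.Agent.MP_5168f5_an.H29N

open H19 H17S Pointwise

variable {Ω Ω' α β γ ι G T : Type} [AddCommGroup G]

theorem dif_nonneg (P : FP Ω) (X : Ω → G) (Q : FP Ω') (U : Ω' → G) : 0 ≤ dif P X Q U := by
  rw [← E_kl]
  exact Q.E_nonneg fun b hb => kl_nonneg P X Q U hb

theorem ch_qi' {P : FP Ω} {f : T → G → β} {C : ℝ} (h : ∀ v, QI (f v) C) (V : Ω → T)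
    (Y s : Ω → G) (L : Ω → α) (h0 : Fn P V L) (h1 : Fn P (fun x => f (V x) (Y x)) L)
    (h2 : Fn P s L) : ch P (fun x => f (V x) (Y x + s x)) L ≤ Real.log C :=
  ch_det fun a ha => by
    obtain ⟨W, hW, hW'⟩ := h (V a) (s a) (f (V a) (Y a))
    refine ⟨W, hW, fun b hb e => ?_⟩
    have h3 := h1 b hb a ha e
    simp only [h0 b hb a ha e] at h3
    rw [h2 b hb a ha e, h0 b hb a ha e]
    exact hW' _ h3

open Classical in
/-- The cheap translations in the context `v`. -/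
noncomputable def UU [DecidableEq G] (s r : St T G) (ε : ℝ) (v : T × G) : Finset G :=
  ((cv r.P r.v v).S.filter fun b => dif (cv s.P s.v v) s.D (cv s.P s.v v) s.D ≤ ε ∧
    kl (cv s.P s.v v) s.D (cv r.P r.v v) r.D (r.D b) ≤ ε).image fun b => -r.D b

theorem UU_cost [DecidableEq G] (s r : St T G) (ε : ℝ) (v : T × G) (R : FP ι) (u : ι → G)
    (h : ∀ t ∈ R.S, u t ∈ UU s r ε v) : cost (cv s.P s.v v) s.D R u ≤ ε ∧
      dif (cv s.P s.v v) s.D (cv s.P s.v v) s.D ≤ ε := by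
  have k : ∀ t ∈ R.S, ∃ b ∈ (cv r.P r.v v).S, u t = -r.D b ∧
      dif (cv s.P s.v v) s.D (cv s.P s.v v) s.D ≤ ε ∧
      kl (cv s.P s.v v) s.D (cv r.P r.v v) r.D (r.D b) ≤ ε := by
    intro t ht
    have := h t ht
    simp only [UU, Finset.mem_image, Finset.mem_filter] at this
    obtain ⟨b, hb, e⟩ := this
    exact ⟨b, hb.1, e.symm, hb.2⟩
  refine ⟨cost_le _ _ (cv r.P r.v v) r.D R u fun t ht => ?_, ?_⟩
  · obtain ⟨b, hb, e, -, h2⟩ := k t ht
    exact ⟨b, hb, e, h2⟩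
  · have : R.S.Nonempty := by
      by_contra hn
      have := R.sum_one
      rw [Finset.not_nonempty_iff_eq_empty.1 hn] at this
      simp at this
    obtain ⟨t, ht⟩ := this
    obtain ⟨b, -, -, h1, -⟩ := k t ht
    exact h1

theorem UU_prob [DecidableEq G] {s r : St T G} (hl : Law s.P s.v r.P r.v) {ε : ℝ} (hε : 0 < ε) :
    r.P.E (fun x => if -r.D x ∈ UU s r ε (r.v x) then 0 else 1) ≤
      (s.P.E (fun x => dif (cv s.P s.v (s.v x)) s.D (cv s.P s.v (s.v x)) s.D) +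
        s.P.E fun x => dif (cv s.P s.v (s.v x)) s.D (cv r.P r.v (s.v x)) r.D) / ε := by
  rw [hl fun v => dif (cv s.P s.v v) s.D (cv s.P s.v v) s.D,
    hl fun v => dif (cv s.P s.v v) s.D (cv r.P r.v v) r.D]
  have e := E_cv r.P r.v fun v b => kl (cv s.P s.v v) s.D (cv r.P r.v v) r.D (r.D b)
  simp only [E_kl] at e
  rw [e, ← FP.E_add, div_eq_inv_mul, ← FP.E_mul]
  refine r.P.E_mono fun x hx => ?_
  have hx' : x ∈ (cv r.P r.v (r.v x)).S := (mem_cv _ _ ⟨x, hx, rfl⟩ x).2 ⟨hx, rfl⟩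
  have h1 := dif_nonneg (cv s.P s.v (r.v x)) s.D (cv s.P s.v (r.v x)) s.D
  have h2 := kl_nonneg (cv s.P s.v (r.v x)) s.D (cv r.P r.v (r.v x)) r.D hx'
  split_ifs with h
  · positivity
  · rw [← div_eq_inv_mul, le_div_iff₀ hε, one_mul]
    by_contra hn
    push Not at hn
    refine h ?_
    simp only [UU, Finset.mem_image, Finset.mem_filter]
    exact ⟨x, ⟨hx', by linarith, by linarith⟩, rfl⟩

theorem UU_grain [DecidableEq G] (s r : St T G) {ε C : ℝ} (hε : 0 ≤ ε) (hC : 1 ≤ C) (q : ℕ)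
    (f : T × G → G → β) (g : T × G → G → γ) (l : T × G → ℝ) (hf : ∀ v, QI (f v) C)
    (hg : ∀ v, QI (g v) C) (h : ∀ v, l v ≤ 0 ∨ ∃ q' ≤ q, ∃ (W : Finset ι) (u u' : ι → G),
      Gr (UU s r ε v) q' C (f v) (g v) (l v) W u u') :
    s.P.E (fun x => l (s.v x)) ≤
      ch s.P (fun x => f (s.v x) (s.D x)) (fun x => (g (s.v x) (s.D x), s.v x)) +
        4 * q * ε + 8 * Real.log C := by
  rw [← ch_cv s.P s.v (fun v x => f v (s.D x)) fun v x => g v (s.D x), add_assoc,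
    ← s.P.E_const (4 * q * ε + 8 * Real.log C), ← FP.E_add]
  refine s.P.E_mono fun x _ => ?_
  rcases h (s.v x) with h | ⟨q', hq, W, u, u', h⟩
  · have h1 := ch_nonneg (P := cv s.P s.v (s.v x)) (fun a => f (s.v x) (s.D a))
      fun a => g (s.v x) (s.D a)
    have h2 := Real.log_nonneg hC
    have h3 : 0 ≤ 4 * (q : ℝ) * ε := by positivity
    linarith
  · have := grain (cv s.P s.v (s.v x)) s.D (hf _) (hg _) h fun R u hu => UU_cost s r ε _ R u hu
    have h3 : (q' : ℝ) * ε ≤ q * ε := mul_le_mul_of_nonneg_right (by exact_mod_cast hq) hε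
    linarith

/-- A copy of the first variable given the difference and the context. -/
noncomputable def cp (s : St T G) : FP (s.Ω × s.Ω × s.Ω) :=
  glue s.P (fun x => (s.D x, s.θ x)) s.P fun x => (s.D x, s.θ x)

theorem mem_cp (s : St T G) {y : s.Ω × s.Ω × s.Ω} (hy : y ∈ (cp s).S) :
    s.B y.2.1 = s.D y.2.2 + s.F y.2.1 ∧ s.θ y.2.1 = s.θ y.2.2 := by
  have h := mem_glue (fun _ => rfl) hy
  simp only [Prod.mk.injEq] at h
  refine ⟨?_, h.2.2.1.2.trans h.2.2.2.2.symm⟩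
  rw [h.2.2.2.1, ← h.2.2.1.1, St.D, sub_add_cancel]

theorem cp_info (s : St T G) : ch s.P s.F s.θ ≤
    ch (cp s) (fun y => s.F y.2.2) (fun y => (s.θ y.2.1, s.B y.2.1)) + s.inf := by
  have e1 := glue_mkv2 (P := s.P) (φ := fun x => (s.D x, s.θ x)) (Q := s.P)
    (ψ := fun x => (s.D x, s.θ x)) (fun _ => rfl) s.F (fun x => x) (Fn.comp _ _)
  have e2 : ch (cp s) (fun y => s.F y.2.2) (fun y => y.2.1) ≤
      ch (cp s) (fun y => s.F y.2.2) fun y => (s.θ y.2.1, s.B y.2.1) :=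
    ch_anti (Fn.comp (fun x => (s.θ x, s.B x)) _)
  have e3 := s.inf_eq
  unfold cp at *
  linarith

theorem cp_grain (s : St T G) {C : ℝ} (f : T × G → G → β) (g : T × G → G → γ)
    (hf : ∀ v, QI (f v) C) (hg : ∀ v, QI (g v) C) :
    ch s.P (fun x => f (s.v x) (s.D x)) (fun x => (g (s.v x) (s.D x), s.v x)) ≤
      ch (cp s) (fun y => f (s.v y.2.2) (s.B y.2.1))
        (fun y => (g (s.v y.2.2) (s.B y.2.1), s.v y.2.2)) + s.inf + 2 * Real.log C := by
  have e1 := (glue_snd (P := s.P) (φ := fun x => (s.D x, s.θ x)) (Q := s.P)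
    (ψ := fun x => (s.D x, s.θ x)) fun _ => rfl).ch (fun x => f (s.v x) (s.D x))
      fun x => (g (s.v x) (s.D x), s.v x)
  have e2 := ch_symm (P := cp s) (fun y => f (s.v y.2.2) (s.D y.2.2)) (fun y => s.F y.2.1)
    fun y => (g (s.v y.2.2) (s.D y.2.2), s.v y.2.2)
  have e3 : ch (cp s) (fun y => s.F y.2.1) (fun y => (g (s.v y.2.2) (s.D y.2.2), s.v y.2.2)) ≤
      ch (cp s) (fun y => s.F y.2.1) fun y => s.θ y.2.1 :=
    ch_anti fun a ha b hb e => by
      simp only [St.v, Prod.mk.injEq] at e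
      rw [(mem_cp s ha).2, (mem_cp s hb).2]
      exact e.2.1
  have e4 := (glue_fst (P := s.P) (φ := fun x => (s.D x, s.θ x)) (Q := s.P)
    (ψ := fun x => (s.D x, s.θ x))).ch s.F s.θ
  have e5 := glue_mkv1 (P := s.P) (φ := fun x => (s.D x, s.θ x)) (Q := s.P)
    (ψ := fun x => (s.D x, s.θ x)) (fun _ => rfl) s.F (fun x => x) (Fn.comp _ _)
  have e6 : ch (cp s) (fun y => s.F y.2.1) (fun y => y.2.2) ≤ ch (cp s) (fun y => s.F y.2.1)
      fun y => (f (s.v y.2.2) (s.D y.2.2), g (s.v y.2.2) (s.D y.2.2), s.v y.2.2) :=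
    ch_anti (Fn.comp (fun x => (f (s.v x) (s.D x), g (s.v x) (s.D x), s.v x)) _)
  have e7 := s.inf_eq
  have t1 := ch_tri (P := cp s) (fun y => f (s.v y.2.2) (s.D y.2.2))
    (fun y => f (s.v y.2.2) (s.B y.2.1))
    fun y => (s.F y.2.1, g (s.v y.2.2) (s.D y.2.2), s.v y.2.2)
  have t2 : ch (cp s) (fun y => f (s.v y.2.2) (s.D y.2.2)) (fun y => (f (s.v y.2.2) (s.B y.2.1),
      s.F y.2.1, g (s.v y.2.2) (s.D y.2.2), s.v y.2.2)) ≤ Real.log C := by
    refine le_trans (ch_mono ?_) (ch_qi' (P := cp s) hf (fun y => s.v y.2.2) (fun y => s.B y.2.1)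
      (fun y => -s.F y.2.1) _ ((((Fn.rfl _).right _).right _).right _) (Fn.fst _ _)
      (((Fn.comp (fun u => -u) _).left _).right _))
    intro a ha b hb e
    have := congrArg Prod.fst e
    simpa only [(mem_cp s ha).1, (mem_cp s hb).1, add_neg_cancel_right] using this
  have t3 := ch_tri (P := cp s) (fun y => f (s.v y.2.2) (s.B y.2.1))
    (fun y => g (s.v y.2.2) (s.B y.2.1))
    fun y => (s.F y.2.1, g (s.v y.2.2) (s.D y.2.2), s.v y.2.2)
  have t4 : ch (cp s) (fun y => g (s.v y.2.2) (s.B y.2.1))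
      (fun y => (s.F y.2.1, g (s.v y.2.2) (s.D y.2.2), s.v y.2.2)) ≤ Real.log C := by
    refine le_trans (ch_mono ?_) (ch_qi' (P := cp s) hg (fun y => s.v y.2.2) (fun y => s.D y.2.2)
      (fun y => s.F y.2.1) _ (((Fn.rfl _).right _).right _) ((Fn.fst _ _).right _) (Fn.fst _ _))
    intro a ha b hb e
    have := congrArg Prod.fst e
    simpa only [(mem_cp s ha).1, (mem_cp s hb).1] using this
  have t5 : ch (cp s) (fun y => f (s.v y.2.2) (s.B y.2.1)) (fun y => (g (s.v y.2.2) (s.B y.2.1),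
      s.F y.2.1, g (s.v y.2.2) (s.D y.2.2), s.v y.2.2)) ≤
      ch (cp s) (fun y => f (s.v y.2.2) (s.B y.2.1))
        fun y => (g (s.v y.2.2) (s.B y.2.1), s.v y.2.2) :=
    ch_anti ((Fn.fst _ _).pair ((((Fn.rfl _).right _).right _).right _))
  change ch (cp s) _ _ = ch s.P (fun x => f (s.v x) (s.D x))
    (fun x => (g (s.v x) (s.D x), s.v x)) at e1
  change ch (cp s) _ _ = ch s.P s.F s.θ at e4
  change ch (cp s) _ _ = _ at e5
  linarith

/-- Main finite theorem: cheap translations `U`, and an extension `ρ` of the base space with side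
data `ω` of small information on which large families of differences give conditional entropy. -/
theorem noise [DecidableEq G] {Ω0 Ω1 : Type} (P0 : FP Ω0) (Θ : Ω0 → T) (A : Ω0 → G)
    (P1 : FP Ω1) (Θ1 : Ω1 → T) (A1 At : Ω1 → G)
    (h1 : Law P1 (fun x => (Θ1 x, A1 x)) P0 fun x => (Θ x, A x))
    (h2 : Law P1 (fun x => (Θ1 x, At x)) P0 fun x => (Θ x, A x)) {η τ ε : ℝ} {J : ℕ}
    (hη : ch P1 (fun x => At x - A1 x) Θ1 ≤
      ch P1 (fun x => At x - A1 x) (fun x => (Θ1 x, A1 x)) + η)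
    (hJ : ch P0 A Θ < J * τ) (hε : 0 < ε) :
    ∃ (U : T × G → Finset G) (Ω' : Type) (Q : FP Ω') (ρ : Ω' → Ω0) (ω : Ω' → G),
      (∀ x ∈ Q.S, ρ x ∈ P0.S) ∧ Law Q ρ P0 id ∧
      Law Q (fun x => (Θ (ρ x), ω x)) P0 (fun x => (Θ x, A x)) ∧
      ch Q ω (fun x => Θ (ρ x)) ≤ ch Q ω ρ + 2 ^ J * η ∧
      P1.E (fun x => if A1 x - At x ∈ U (Θ1 x, A1 x) then 0 else 1) ≤
        (2 * τ + 3 * (2 ^ J * η) + η) / ε ∧
      ∀ (β γ ι : Type) (q : ℕ) (C : ℝ) (f : T × G → G → β) (g : T × G → G → γ) (l : T × G → ℝ),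
        1 ≤ C → (∀ v, QI (f v) C) → (∀ v, QI (g v) C) →
        (∀ v, l v ≤ 0 ∨ ∃ q' ≤ q, ∃ (W : Finset ι) (u u' : ι → G),
          Gr (U v) q' C (f v) (g v) (l v) W u u') →
        P0.E (fun x => l (Θ x, A x)) ≤
          ch Q (fun x => f (Θ (ρ x), ω x) (A (ρ x)))
            (fun x => (g (Θ (ρ x), ω x) (A (ρ x)), Θ (ρ x), ω x)) +
          4 * q * ε + 2 ^ J * η + 10 * Real.log C := by
  let r : St T G := ⟨Ω1, P1, Θ1, A1, At⟩
  have hr : r.OK P0 fun x => (Θ x, A x) := ⟨h1, h2⟩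
  obtain ⟨s, hs, hi, hT, hR⟩ := St.stable (τ := τ) hr (η := η) (sub_le_iff_le_add'.2 hη) hJ
  have hl : Law P0 (fun x => (Θ x, A x)) (cp s) fun y => (s.θ y.2.1, s.B y.2.1) :=
    fun K => ((glue_fst fun y => K (s.θ y, s.B y)).trans (hs.2 K)).symm
  have hm : ∀ x ∈ (glue P0 (fun x => (Θ x, A x)) (cp s) fun y => (s.θ y.2.1, s.B y.2.1)).S,
      Θ x.2.1 = s.θ x.2.2.2.2 ∧ A x.2.1 = s.B x.2.2.2.1 := by
    intro x hx
    have h := mem_glue hl hx
    have h' := mem_cp s h.2.1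
    simp only [Prod.mk.injEq] at h
    exact ⟨h.2.2.1.1.trans (h.2.2.2.1.symm.trans h'.2), h.2.2.1.2.trans h.2.2.2.2.symm⟩
  have hc : Law (glue P0 (fun x => (Θ x, A x)) (cp s) fun y => (s.θ y.2.1, s.B y.2.1))
      (fun x => (Θ x.2.1, s.F x.2.2.2.2)) s.P s.v := by
    intro K
    refine Eq.trans ?_ ((glue_snd hl fun y => K (s.v y.2.2)).trans
      (glue_snd (fun _ => rfl) fun x => K (s.v x)))
    exact FP.E_congr _ fun x hx => congrArg K (Prod.ext (hm x hx).1 rfl)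
  refine ⟨UU s r ε, _, glue P0 (fun x => (Θ x, A x)) (cp s) fun y => (s.θ y.2.1, s.B y.2.1),
    fun x => x.2.1, fun x => s.F x.2.2.2.2, fun x hx => (mem_glue hl hx).1, glue_fst,
    hc.trans hs.1, ?_, ?_, ?_⟩
  · have e1 := hc.ch Prod.snd Prod.fst
    have e2 := glue_mkv2 hl (fun y => s.F y.2.2) (fun x => x) (Fn.comp _ _)
    have e3 := cp_info s
    change _ = ch s.P s.F s.θ at e1
    linarith
  · have e := UU_prob (St.law hs hr) hε
    refine le_trans (le_of_eq (P1.E_congr fun x _ => ?_)) (e.trans ?_)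
    · simp only [St.D, St.v, r, neg_sub]
    · exact div_le_div_of_nonneg_right (by linarith) hε.le
  · intro β γ ι q C f g l hC hf hg h
    have e1 := UU_grain s r hε.le hC q f g l hf hg h
    have e2 := cp_grain s f g hf hg
    have e3 := (glue_snd hl).ch (fun y => f (s.v y.2.2) (s.B y.2.1))
      fun y => (g (s.v y.2.2) (s.B y.2.1), s.v y.2.2)
    have e4 := hs.1 l
    have e5 : ch (glue P0 (fun x => (Θ x, A x)) (cp s) fun y => (s.θ y.2.1, s.B y.2.1))
        (fun x => f (s.v x.2.2.2.2) (s.B x.2.2.2.1))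
        (fun x => (g (s.v x.2.2.2.2) (s.B x.2.2.2.1), s.v x.2.2.2.2)) ≤
        ch (glue P0 (fun x => (Θ x, A x)) (cp s) fun y => (s.θ y.2.1, s.B y.2.1))
        (fun x => f (Θ x.2.1, s.F x.2.2.2.2) (A x.2.1))
        fun x => (g (Θ x.2.1, s.F x.2.2.2.2) (A x.2.1), Θ x.2.1, s.F x.2.2.2.2) := by
      refine ch_le (fun a ha b hb e => ?_) fun a ha b hb e => ?_
      · have := congrArg Prod.fst e
        simpa only [(hm a ha).1, (hm a ha).2, (hm b hb).1, (hm b hb).2, St.v] using this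
      · simpa only [(hm a ha).1, (hm a ha).2, (hm b hb).1, (hm b hb).2, St.v] using e
    change _ = ch (cp s) (fun y => f (s.v y.2.2) (s.B y.2.1))
      (fun y => (g (s.v y.2.2) (s.B y.2.1), s.v y.2.2)) at e3
    linarith

end Pool.Agent.MP_5168f5_an.H29N
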