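import Pool.Agent.MP_5168f5_an.H29N.Loc

/-! Couplings that are almost stable under composition. -/

namespace Pool.Agent.MP_5168f5_an.H29N

open H19 H17S Pointwise

/-- A context `θ` with a pair `(F, B)` of group valued variables. -/
structure St (T G : Type) where
  Ω : Type
  P : FP Ω
  θ : Ω → T
  F : Ω → G
  B : Ω → G

namespace St

variable {T G Ω0 : Type} [AddCommGroup G]

/-- Context and first variable. -/
def v (s : St T G) (x : s.Ω) : T × G := (s.θ x, s.F x)

/-- The difference. -/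
def D (s : St T G) (x : s.Ω) : G := s.B x - s.F x

/-- Both variables have the reference law. -/
def OK (s : St T G) (P0 : FP Ω0) (v0 : Ω0 → T × G) : Prop :=
  Law s.P s.v P0 v0 ∧ Law s.P (fun x => (s.θ x, s.B x)) P0 v0

/-- Entropy of the second variable given the first. -/
noncomputable def pot (s : St T G) : ℝ := ch s.P s.B s.v

/-- Information between the difference and the first variable. -/
noncomputable def inf (s : St T G) : ℝ := ch s.P s.D s.θ - ch s.P s.D s.v

/-- Glue along the first variables, keep the second ones. -/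
noncomputable def comp (s r : St T G) : St T G where
  Ω := s.Ω × s.Ω × r.Ω
  P := glue s.P s.v r.P r.v
  θ := fun x => s.θ x.2.1
  F := fun x => r.B x.2.2
  B := fun x => s.B x.2.1

variable {P0 : FP Ω0} {v0 : Ω0 → T × G} {s r : St T G}

omit [AddCommGroup G] in
theorem law (hs : s.OK P0 v0) (hr : r.OK P0 v0) : Law s.P s.v r.P r.v := hs.1.trans hr.1.symm

omit [AddCommGroup G] in
theorem mem (hs : s.OK P0 v0) (hr : r.OK P0 v0) {x : s.Ω × s.Ω × r.Ω}
    (hx : x ∈ (glue s.P s.v r.P r.v).S) : s.θ x.2.1 = s.θ x.1 ∧ s.F x.2.1 = s.F x.1 ∧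
      r.θ x.2.2 = s.θ x.1 ∧ r.F x.2.2 = s.F x.1 := by
  have h := mem_glue (law hs hr) hx
  simp only [v, Prod.mk.injEq] at h
  tauto

omit [AddCommGroup G] in
theorem comp_ok (hs : s.OK P0 v0) (hr : r.OK P0 v0) : (s.comp r).OK P0 v0 := by
  refine ⟨fun K => ?_, fun K => ?_⟩
  · refine Eq.trans ?_ (((glue_snd (law hs hr)) fun y => K (r.θ y, r.B y)).trans (hr.2 K))
    refine (glue s.P s.v r.P r.v).E_congr fun x hx => ?_
    have h := mem hs hr hx
    simp only [v, comp, h.1, h.2.2.1]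
  · exact (glue_fst fun y => K (s.θ y, s.B y)).trans (hs.2 K)

theorem pot_eq (s : St T G) : s.pot = ch s.P s.D s.v :=
  le_antisymm (ch_mono fun a _ b _ e => by
      simp only [D, v, Prod.mk.injEq] at e
      have := e.1
      rw [e.2.2] at this
      exact sub_left_injective this)
    (ch_mono fun a _ b _ e => by
      simp only [D, v, Prod.mk.injEq] at e ⊢
      rw [e.1, e.2.2])

theorem inf_nonneg (s : St T G) : 0 ≤ s.inf :=
  sub_nonneg.2 (ch_anti (Fn.fst _ _))

omit [AddCommGroup G] in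
theorem chF (hs : s.OK P0 v0) : ch s.P s.F s.θ = ch P0 (fun x => (v0 x).2) fun x => (v0 x).1 :=
  hs.1.ch Prod.snd Prod.fst

omit [AddCommGroup G] in
theorem chB (hs : s.OK P0 v0) : ch s.P s.B s.θ = ch P0 (fun x => (v0 x).2) fun x => (v0 x).1 :=
  hs.2.ch Prod.snd Prod.fst

omit [AddCommGroup G] in
theorem pot_le (hs : s.OK P0 v0) : s.pot ≤ ch P0 (fun x => (v0 x).2) fun x => (v0 x).1 := by
  rw [← chB hs]
  exact ch_anti (Fn.fst _ _)

/-- The information in the other order. -/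
theorem inf_eq (s : St T G) : s.inf = ch s.P s.F s.θ - ch s.P s.F fun x => (s.D x, s.θ x) := by
  have h := ch_symm (P := s.P) s.D s.F s.θ
  have e : ch s.P s.D s.v = ch s.P s.D fun x => (s.F x, s.θ x) :=
    le_antisymm (ch_anti ((Fn.snd _ _).pair (Fn.fst _ _)))
      (ch_anti ((Fn.snd _ _).pair (Fn.fst _ _)))
  unfold inf
  linarith

omit [AddCommGroup G] in
theorem pot_comp (hs : s.OK P0 v0) (hr : r.OK P0 v0) : s.pot ≤ (s.comp r).pot := by
  have h := glue_mkv1 (law hs hr) s.B (fun y => (r.v y, r.B y)) (Fn.fst _ _)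
  unfold pot
  rw [← h]
  refine ch_anti (P := glue s.P s.v r.P r.v) fun a ha b hb e => ?_
  have h1 := mem hs hr ha
  have h2 := mem hs hr hb
  simp only [v, comp, Prod.mk.injEq] at e ⊢
  exact ⟨by rw [h1.1, h2.1, ← h1.2.2.1, ← h2.2.2.1, e.1.1], e.2⟩

theorem inf_comp (hs : s.OK P0 v0) (hr : r.OK P0 v0) : (s.comp r).inf ≤ s.inf + r.inf := by
  have hl := law hs hr
  have e0 := (s.comp r).inf_eq
  have e1 := chF (comp_ok hs hr)
  have e2 := chF hs
  have e3 := glue_fst (P := s.P) (φ := s.v) (Q := r.P) (ψ := r.v) |>.ch s.F s.θ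
  have e4 : ch (glue s.P s.v r.P r.v) (fun x => s.F x.2.1)
      (fun x => ((s.D x.2.1, r.D x.2.2), s.θ x.2.1)) ≤
      ch (s.comp r).P (s.comp r).F fun x => ((s.comp r).D x, (s.comp r).θ x) := by
    refine ch_le (P := glue s.P s.v r.P r.v) (fun a ha b hb e => ?_) fun a ha b hb e => ?_
    · have h1 := mem hs hr ha
      have h2 := mem hs hr hb
      simp only [D, comp, Prod.mk.injEq] at e ⊢
      have := e.2.1.2
      rw [e.1, h1.2.2.2, h2.2.2.2] at this
      rw [h1.2.1, h2.2.1]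
      exact sub_right_injective this
    · have h1 := mem hs hr ha
      have h2 := mem hs hr hb
      simp only [D, comp, Prod.mk.injEq] at e ⊢
      refine ⟨?_, e.2⟩
      have := congrArg₂ (· - ·) e.1.1 e.1.2
      simpa only [h1.2.1, h2.2.1, h1.2.2.2, h2.2.2.2, sub_sub_sub_cancel_right] using this
  have e5 := ch_symm (P := glue s.P s.v r.P r.v) (fun x => s.F x.2.1)
    (fun x => (s.D x.2.1, r.D x.2.2)) fun x => s.θ x.2.1
  have e6 := ch_subadd (P := glue s.P s.v r.P r.v) (fun x => s.D x.2.1) (fun x => r.D x.2.2)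
    fun x => s.θ x.2.1
  have e7 := glue_fst (P := s.P) (φ := s.v) (Q := r.P) (ψ := r.v) |>.ch s.D s.θ
  have e8 := (glue_snd hl).ch r.D r.θ
  have e9 : ch (glue s.P s.v r.P r.v) (fun x => r.D x.2.2) (fun x => s.θ x.2.1) ≤
      ch (glue s.P s.v r.P r.v) (fun x => r.D x.2.2) fun x => r.θ x.2.2 :=
    ch_anti fun a ha b hb e => by
      rw [(mem hs hr ha).2.2.1, (mem hs hr hb).2.2.1, ← (mem hs hr ha).1, ← (mem hs hr hb).1]
      exact e
  have e10 := glue_ind hl s.D r.D
  have e11 : ch (glue s.P s.v r.P r.v) (fun x => (s.D x.2.1, r.D x.2.2)) (fun x => s.v x.1) ≤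
      ch (glue s.P s.v r.P r.v) (fun x => (s.D x.2.1, r.D x.2.2))
        fun x => (s.F x.2.1, s.θ x.2.1) :=
    ch_anti fun a ha b hb e => by
      simp only [v, Prod.mk.injEq] at e ⊢
      rw [(mem hs hr ha).1, (mem hs hr hb).1, (mem hs hr ha).2.1, (mem hs hr hb).2.1]
      exact ⟨e.2, e.1⟩
  simp only [id] at e3 e7 e8
  change ch _ _ _ = ch s.P s.F s.θ at e3
  change ch _ _ _ = ch s.P s.D s.θ at e7
  change ch _ _ _ = ch r.P r.D r.θ at e8
  rw [e0]
  unfold inf
  linarith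

/-- The mean local entropy gain is the gain of the potential plus the information. -/
theorem E_dif (hs : s.OK P0 v0) (hr : r.OK P0 v0) :
    s.P.E (fun x => dif (cv s.P s.v (s.v x)) s.D (cv r.P r.v (s.v x)) r.D) ≤
      (s.comp r).pot - s.pot + (s.inf + r.inf) := by
  have e1 := ent_glue (P := s.P) (φ := s.v) (Q := r.P) (ψ := r.v) fun _ y => s.D y.1 - r.D y.2
  have e2 := ent_cv s.P s.v fun _ => s.D
  have e3 := s.pot_eq
  have e4 := (s.comp r).pot_eq
  have e5 := inf_comp hs hr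
  have e6 : ch (glue s.P s.v r.P r.v) (fun x => s.D x.2.1 - r.D x.2.2) (fun x => s.v x.1) ≤
      ch (s.comp r).P (s.comp r).D (s.comp r).θ := by
    refine ch_le (P := glue s.P s.v r.P r.v) (fun a ha b hb e => ?_) fun a ha b hb e => ?_
    · have h1 := mem hs hr ha
      have h2 := mem hs hr hb
      simp only [D, comp, Prod.mk.injEq] at e ⊢
      simpa only [h1.2.1, h2.2.1, h1.2.2.2, h2.2.2.2, sub_sub_sub_cancel_right] using e.1
    · simp only [v, comp, Prod.mk.injEq] at e ⊢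
      rw [(mem hs hr ha).1, (mem hs hr hb).1]
      exact e.1
  unfold dif
  rw [FP.E_sub]
  unfold inf at e5 ⊢
  change _ = ch s.P s.D s.v at e2
  linarith

theorem iter {Θ : Ω0 → T} {A : Ω0 → G} (hr : r.OK P0 fun x => (Θ x, A x)) {η τ : ℝ}
    (hη : r.inf ≤ η) (j : ℕ) : ∃ s : St T G, s.OK P0 (fun x => (Θ x, A x)) ∧ s.inf ≤ 2 ^ j * η ∧
      (((s.comp s).pot ≤ s.pot + τ ∧ (s.comp r).pot ≤ s.pot + τ) ∨ j * τ ≤ s.pot) := by
  have h0 : 0 ≤ η := r.inf_nonneg.trans hη
  induction j with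
  | zero =>
    refine ⟨⟨Ω0, P0, Θ, A, A⟩, ⟨fun _ => rfl, fun _ => rfl⟩, ?_, Or.inr ?_⟩
    · have h1 := ch_nonneg (P := P0) (D ⟨Ω0, P0, Θ, A, A⟩) (v ⟨Ω0, P0, Θ, A, A⟩)
      have h2 : ch P0 (D ⟨Ω0, P0, Θ, A, A⟩) Θ = 0 :=
        ch_zero fun a _ b _ _ => by simp only [D, sub_self]
      unfold inf
      simp only [pow_zero, one_mul]
      linarith
    · simp only [Nat.cast_zero, zero_mul]
      exact ch_nonneg _ _
  | succ j ih =>
    obtain ⟨s, hs, hi, h⟩ := ih
    have h1 : η ≤ 2 ^ j * η := le_mul_of_one_le_left h0 (one_le_pow₀ one_le_two)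
    rw [pow_succ]
    push_cast
    rcases h with h | h
    · exact ⟨s, hs, by linarith, Or.inl h⟩
    · by_cases h2 : (s.comp s).pot ≤ s.pot + τ
      · by_cases h3 : (s.comp r).pot ≤ s.pot + τ
        · exact ⟨s, hs, by linarith, Or.inl ⟨h2, h3⟩⟩
        · exact ⟨s.comp r, comp_ok hs hr, by linarith [inf_comp hs hr], Or.inr (by linarith)⟩
      · exact ⟨s.comp s, comp_ok hs hs, by linarith [inf_comp hs hs], Or.inr (by linarith)⟩

theorem stable {Θ : Ω0 → T} {A : Ω0 → G} (hr : r.OK P0 fun x => (Θ x, A x)) {η τ : ℝ}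
    (hη : r.inf ≤ η) {J : ℕ} (hJ : ch P0 A Θ < J * τ) :
    ∃ s : St T G, s.OK P0 (fun x => (Θ x, A x)) ∧ s.inf ≤ 2 ^ J * η ∧
      s.P.E (fun x => dif (cv s.P s.v (s.v x)) s.D (cv s.P s.v (s.v x)) s.D) ≤
        τ + 2 * (2 ^ J * η) ∧
      s.P.E (fun x => dif (cv s.P s.v (s.v x)) s.D (cv r.P r.v (s.v x)) r.D) ≤
        τ + (2 ^ J * η + η) := by
  obtain ⟨s, hs, hi, h⟩ := iter (τ := τ) hr hη J
  rcases h with h | h
  · exact ⟨s, hs, hi, by linarith [E_dif hs hs, h.1], by linarith [E_dif hs hr, h.2]⟩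
  · have := pot_le hs
    exact absurd (h.trans this) (not_le.2 hJ)

end St

end Pool.Agent.MP_5168f5_an.H29N
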