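import Pool.Agent.MP_5168f5_an.H29N.Main

/-! A large set of multiples of one vector near a level set gives a grain window. -/

namespace Pool.Agent.MP_5168f5_an.H29N

open H19 H17S Pointwise

variable {N : ℕ}

/-- An integer vector as a real vector. -/
def cz (y : Z N) : V N := fun k => (y k : ℝ)

theorem cz_add (y s : Z N) : cz (y + s) = cz y + cz s := by
  funext k; simp [cz]

/-- The cell of side `μ`. -/
noncomputable def Fq (μ : ℝ) (x : V N) : Z N := fun k => ⌊x k / μ⌋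

/-- Remove the multiple of `b` given by the coordinate `j`. -/
def md (j : Fin N) (b x : V N) : V N := x - x j • b

theorem md_add (j : Fin N) (b x y : V N) : md j b (x + y) = md j b x + md j b y := by
  simp only [md, Pi.add_apply]; module

theorem md_sub (j : Fin N) (b x y : V N) : md j b (x - y) = md j b x - md j b y := by
  simp only [md, Pi.sub_apply]; module

theorem norm_md (j : Fin N) {b : V N} (hb : ‖b‖ ≤ 1) (x : V N) : ‖md j b x‖ ≤ 2 * ‖x‖ := by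
  have h1 := norm_sub_le x (x j • b)
  rw [norm_smul] at h1
  have h2 : ‖x j‖ * ‖b‖ ≤ ‖x‖ * 1 :=
    mul_le_mul (norm_le_pi_norm x j) hb (norm_nonneg _) (norm_nonneg _)
  unfold md
  linarith

theorem floor_mem {x y : ℝ} {m : ℕ} (h : |x - y| ≤ m) :
    ⌊x⌋ ∈ Finset.Icc (⌊y⌋ - m) (⌊y⌋ + m) := by
  rw [abs_le] at h
  rw [Finset.mem_Icc, ← Int.floor_sub_natCast, ← Int.floor_add_natCast]
  exact ⟨Int.floor_le_floor (by linarith [h.1]), Int.floor_le_floor (by linarith [h.2])⟩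

theorem Fq_near {μ : ℝ} (hμ : 0 < μ) {x y : V N} (h : Fq μ x = Fq μ y) : ‖x - y‖ ≤ μ := by
  refine (pi_norm_le_iff_of_nonneg hμ.le).2 fun k => ?_
  have h1 := Int.abs_sub_lt_one_of_floor_eq_floor (congrFun h k)
  rw [← sub_div, abs_div, abs_of_pos hμ, div_lt_one hμ] at h1
  exact h1.le

theorem few {ι : Type} {μ : ℝ} (hμ : 0 < μ) (m : ℕ) (p : ι → Prop) (x : ι → V N)
    (h : ∀ a b, p a → p b → ‖x a - x b‖ ≤ m * μ) :
    ∃ W : Finset (Z N), W.card ≤ (2 * m + 1) ^ N ∧ ∀ a, p a → Fq μ (x a) ∈ W := by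
  by_cases hp : ∃ b, p b
  · obtain ⟨b, hb⟩ := hp
    refine ⟨Fintype.piFinset fun k => Finset.Icc (Fq μ (x b) k - m) (Fq μ (x b) k + m), ?_,
      fun a ha => Fintype.mem_piFinset.2 fun k => floor_mem ?_⟩
    · rw [Fintype.card_piFinset]
      have : ∀ k, (Finset.Icc (Fq μ (x b) k - m) (Fq μ (x b) k + m)).card = 2 * m + 1 := by
        intro k; rw [Int.card_Icc]; omega
      simp [this]
    · rw [← sub_div, abs_div, abs_of_pos hμ, div_le_iff₀ hμ]
      exact (norm_le_pi_norm (x a - x b) k).trans (h a b ha hb)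
  · exact ⟨∅, by simp, fun a ha => absurd ⟨a, ha⟩ hp⟩

theorem few1 {ι : Type} {μ : ℝ} (hμ : 0 < μ) (p : ι → Prop) (x : ι → V N)
    (h : ∀ a b, p a → p b → ‖x a - x b‖ ≤ 5 * μ) :
    ∃ W : Finset (Z N), (W.card : ℝ) ≤ 121 ^ N ∧ ∀ a, p a → Fq μ (x a) ∈ W := by
  obtain ⟨W, h1, h2⟩ := few hμ 5 p x (by exact_mod_cast h)
  refine ⟨W, ?_, h2⟩
  have : (2 * 5 + 1) ^ N ≤ 121 ^ N := Nat.pow_le_pow_left (by norm_num) N
  exact_mod_cast h1.trans this

theorem few2 {ι : Type} {μ ν : ℝ} (hμ : 0 < μ) (hν : 0 < ν) (p : ι → Prop) (x y : ι → V N)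
    (h : ∀ a b, p a → p b → ‖x a - x b‖ ≤ 5 * μ ∧ ‖y a - y b‖ ≤ 5 * ν) :
    ∃ W : Finset (Z N × Z N), (W.card : ℝ) ≤ 121 ^ N ∧
      ∀ a, p a → (Fq μ (x a), Fq ν (y a)) ∈ W := by
  obtain ⟨W, h1, h2⟩ := few hμ 5 p x fun a b ha hb => by exact_mod_cast (h a b ha hb).1
  obtain ⟨W', h1', h2'⟩ := few hν 5 p y fun a b ha hb => by exact_mod_cast (h a b ha hb).2
  refine ⟨W ×ˢ W', ?_, fun a ha => Finset.mem_product.2 ⟨h2 a ha, h2' a ha⟩⟩
  have := Nat.mul_le_mul h1 h1'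
  rw [← mul_pow, ← Finset.card_product] at this
  exact_mod_cast this

/-- The fine cell. -/
noncomputable def wf (φ : ℝ) (y : Z N) : Z N := Fq φ (cz y)

/-- The fine cell modulo `b` and the coarse cell. -/
noncomputable def wg (φ ψ : ℝ) (j : Fin N) (b : V N) (y : Z N) : Z N × Z N :=
  (Fq φ (md j b (cz y)), Fq ψ (cz y))

theorem qi_wf {φ : ℝ} (hφ : 0 < φ) : QI (wf (N := N) φ) (121 ^ N) := by
  intro s c
  refine few1 hφ (fun y => wf φ y = c) (fun y => cz (y + s)) fun a b ha hb => ?_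
  have := Fq_near hφ (ha.trans hb.symm)
  rw [cz_add, cz_add, add_sub_add_right_eq_sub]
  linarith

theorem qi_wg {φ ψ : ℝ} (hφ : 0 < φ) (hψ : 0 < ψ) (j : Fin N) (b : V N) :
    QI (wg φ ψ j b) (121 ^ N) := by
  intro s c
  refine few2 hφ hψ (fun y => wg φ ψ j b y = c) (fun y => md j b (cz (y + s)))
    (fun y => cz (y + s)) fun y y' ha hb => ?_
  have e := ha.trans hb.symm
  have h1 := Fq_near hφ (congrArg Prod.fst e)
  have h2 := Fq_near hψ (congrArg Prod.snd e)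
  simp only [cz_add, md_add, add_sub_add_right_eq_sub]
  constructor <;> linarith

theorem card_cls {lam : ℝ} (h0 : 0 < lam) (h1 : lam ≤ 1) (T : Finset ℤ) :
    lam * T.card / 2 ≤ (T.image fun t : ℤ => ⌊lam * t⌋).card := by
  have h2 : T.card ≤ ⌊2 / lam⌋₊ * (T.image fun t : ℤ => ⌊lam * t⌋).card := by
    refine Finset.card_le_mul_card_image T _ fun k _ => ?_
    have h3 : (T.filter fun t : ℤ => ⌊lam * t⌋ = k) ⊆
        Finset.Ico ⌈k / lam⌉ (⌈k / lam⌉ + ⌊2 / lam⌋₊) := by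
      intro t ht
      have h4 := (Finset.mem_filter.1 ht).2
      rw [Int.floor_eq_iff] at h4
      rw [Finset.mem_Ico]
      refine ⟨Int.ceil_le.2 ((div_le_iff₀' h0).2 h4.1), ?_⟩
      have h5 := Int.le_ceil (k / lam)
      have h6 := Nat.lt_floor_add_one (2 / lam)
      have h7 : (t : ℝ) < k / lam + 1 / lam := by
        rw [← add_div, lt_div_iff₀' h0]; exact h4.2
      have h8 : 1 ≤ 1 / lam := one_le_one_div h0 h1
      have h9 : 2 / lam = 1 / lam + 1 / lam := by ring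
      have : (t : ℝ) < ((⌈k / lam⌉ + (⌊2 / lam⌋₊ : ℤ) : ℤ) : ℝ) := by
        push_cast; linarith
      exact_mod_cast this
    have := Finset.card_le_card h3
    rwa [Int.card_Ico, add_sub_cancel_left, Int.toNat_natCast] at this
  have h3 : (T.card : ℝ) ≤ 2 / lam * (T.image fun t : ℤ => ⌊lam * t⌋).card :=
    le_trans (by exact_mod_cast h2)
      (mul_le_mul_of_nonneg_right (Nat.floor_le (by positivity)) (Nat.cast_nonneg _))
  rw [div_mul_eq_mul_div, le_div_iff₀' h0] at h3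
  linarith

theorem win {U : Finset (Z N)} {q : ℕ} {n μ φ ψ : ℝ} {v : V N} {j : Fin N} {T : Finset ℤ}
    (hn : 0 < n) (hv : 0 < ‖v‖) (hj : |v j| = ‖v‖) (hμ : μ ≤ φ) (hφ : 0 < φ) (hψ : φ ≤ ψ)
    (hvψ : ‖v‖ ≤ ψ) (hvn : ‖v‖ ≤ n * φ) (hT : T.Nonempty)
    (hT' : ∀ t ∈ T, 0 ≤ (t : ℝ) ∧ (t : ℝ) ≤ n)
    (h : ∀ t ∈ T, ∀ t' ∈ T, ∃ s ∈ q • U, ∃ s' ∈ q • U,
      ‖(((t : ℝ) - t') / n) • v - (cz s - cz s')‖ ≤ μ) :
    ∃ (W : Finset ℤ) (u u' : ℤ → Z N), Gr U q (121 ^ N) (wf φ) (wg φ ψ j ((v j)⁻¹ • v))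
      (Real.log (‖v‖ / (n * φ) * T.card / 2)) W u u' := by
  obtain ⟨t0, ht0⟩ := hT
  set lam := ‖v‖ / (n * φ) with hlam
  have hl0 : 0 < lam := by positivity
  have hl1 : lam ≤ 1 := (div_le_one (by positivity)).2 hvn
  have hvj : v j ≠ 0 := fun e => by rw [e, abs_zero] at hj; exact hv.ne hj
  have hb : ‖(v j)⁻¹ • v‖ ≤ 1 := by
    rw [norm_smul, norm_inv, Real.norm_eq_abs, hj, inv_mul_cancel₀ hv.ne']
  have hψ0 : 0 < ψ := hφ.trans_le hψ
  have k : ∀ c : ℤ, ∃ (t : ℤ) (s s' : Z N), c ∈ T.image (fun t : ℤ => ⌊lam * t⌋) →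
      t ∈ T ∧ ⌊lam * t⌋ = c ∧ s ∈ q • U ∧ s' ∈ q • U ∧
        ‖(((t : ℝ) - t0) / n) • v - (cz s - cz s')‖ ≤ μ := by
    intro c
    by_cases hc : c ∈ T.image fun t : ℤ => ⌊lam * t⌋
    · obtain ⟨t, ht, e⟩ := Finset.mem_image.1 hc
      obtain ⟨s, hs, s', hs', e'⟩ := h t ht t0 ht0
      exact ⟨t, s, s', fun _ => ⟨ht, e, hs, hs', e'⟩⟩
    · exact ⟨0, 0, 0, fun h => absurd h hc⟩
  choose t s s' hk using k
  have hd : ∀ c ∈ T.image (fun t : ℤ => ⌊lam * t⌋), ‖cz (s c) - cz (s' c)‖ ≤ 2 * ψ ∧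
      ‖md j ((v j)⁻¹ • v) (cz (s c) - cz (s' c))‖ ≤ 2 * φ := by
    intro c hc
    obtain ⟨h1, -, -, -, h2⟩ := hk c hc
    set τ := ((t c : ℝ) - t0) / n
    have h3 : |τ| ≤ 1 := by
      rw [abs_div, abs_of_pos hn, div_le_one hn, abs_le]
      constructor <;> linarith [(hT' _ h1).1, (hT' _ h1).2, (hT' _ ht0).1, (hT' _ ht0).2]
    have h4 : ‖τ • v‖ ≤ ‖v‖ := by
      rw [norm_smul]; exact mul_le_of_le_one_left (norm_nonneg _) h3
    have h5 := norm_sub_le (τ • v) (τ • v - (cz (s c) - cz (s' c)))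
    rw [sub_sub_cancel] at h5
    have h6 := norm_md j hb (τ • v - (cz (s c) - cz (s' c)))
    have h7 : md j ((v j)⁻¹ • v) (τ • v) = 0 := by
      simp only [md, Pi.smul_apply, smul_eq_mul, smul_smul, mul_assoc, mul_inv_cancel₀ hvj,
        mul_one, sub_self]
    rw [md_sub, h7, zero_sub, norm_neg] at h6
    constructor <;> linarith
  refine ⟨T.image fun t : ℤ => ⌊lam * t⌋, s, s', ⟨_, Finset.mem_image_of_mem _ ht0⟩, ?_,
    fun c hc => ⟨(hk c hc).2.2.1, (hk c hc).2.2.2.1⟩, fun b b' => ?_, fun c => ?_, fun b => ?_⟩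
  · have : (0 : ℝ) < T.card := by exact_mod_cast Finset.card_pos.2 ⟨t0, ht0⟩
    exact Real.log_le_log (by positivity) (card_cls hl0 hl1 T)
  · by_cases hp : ∃ y, ∃ c ∈ T.image (fun t : ℤ => ⌊lam * t⌋),
        wf φ (y + s c) = b ∧ wf φ (y + s' c) = b'
    · obtain ⟨y', c', hc', e1', e2'⟩ := hp
      refine ⟨Finset.Icc (c' - (4 : ℕ)) (c' + (4 : ℕ)), ?_, fun y c hc e1 e2 => ?_⟩
      · rw [Int.card_Icc]
        have h1 : (c' + (4 : ℕ) + 1 - (c' - (4 : ℕ))).toNat = 9 := by omega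
        have h2 : (121 : ℝ) ^ 1 ≤ 121 ^ N := pow_le_pow_right₀ (by norm_num) j.pos
        rw [h1]; push_cast; linarith
      · have h1 := Fq_near hφ (e1.trans e1'.symm)
        have h2 := Fq_near hφ (e2.trans e2'.symm)
        obtain ⟨-, k1, -, -, k2⟩ := hk c hc
        obtain ⟨-, k1', -, -, k2'⟩ := hk c' hc'
        rw [← k1, ← k1']
        refine floor_mem ?_
        have e : (((t c : ℝ) - t c') / n) • v =
            ((((t c : ℝ) - t0) / n) • v - (cz (s c) - cz (s' c))) -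
            ((((t c' : ℝ) - t0) / n) • v - (cz (s c') - cz (s' c'))) +
            ((cz (y + s c) - cz (y' + s c')) - (cz (y + s' c) - cz (y' + s' c'))) := by
          simp only [cz_add, sub_div]; module
        have h3 : ‖(((t c : ℝ) - t c') / n) • v‖ ≤ 4 * φ := by
          rw [e]
          refine (norm_add_le _ _).trans ?_
          linarith [norm_sub_le ((((t c : ℝ) - t0) / n) • v - (cz (s c) - cz (s' c)))
            ((((t c' : ℝ) - t0) / n) • v - (cz (s c') - cz (s' c'))),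
            norm_sub_le (cz (y + s c) - cz (y' + s c')) (cz (y + s' c) - cz (y' + s' c'))]
        rw [norm_smul, Real.norm_eq_abs, abs_div, abs_of_pos hn] at h3
        rw [← mul_sub, abs_mul, abs_of_pos hl0, hlam, div_mul_eq_mul_div,
          div_le_iff₀ (by positivity)]
        rw [div_mul_eq_mul_div, div_le_iff₀ hn] at h3
        push_cast
        linarith
    · exact ⟨∅, by simp, fun y c hc e1 e2 => absurd ⟨y, c, hc, e1, e2⟩ hp⟩
  · obtain ⟨W, h1, h2⟩ := few2 hφ hψ0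
      (fun a : Z N × ℤ => a.2 ∈ T.image (fun t : ℤ => ⌊lam * t⌋) ∧
        wg φ ψ j ((v j)⁻¹ • v) (a.1 + s' a.2) = c)
      (fun a => md j ((v j)⁻¹ • v) (cz (a.1 + s a.2))) (fun a => cz (a.1 + s a.2))
      fun a a' ha ha' => by
        have e := ha.2.trans ha'.2.symm
        have h1 := Fq_near hφ (congrArg Prod.fst e)
        have h2 := Fq_near hψ0 (congrArg Prod.snd e)
        have h3 := hd _ ha.1
        have h4 := hd _ ha'.1
        have e1 : cz (a.1 + s a.2) - cz (a'.1 + s a'.2) =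
            (cz (a.1 + s' a.2) - cz (a'.1 + s' a'.2)) +
            ((cz (s a.2) - cz (s' a.2)) - (cz (s a'.2) - cz (s' a'.2))) := by
          simp only [cz_add]; abel
        rw [← md_sub] at h1 ⊢
        rw [e1, md_add, md_sub _ _ (cz (s a.2) - cz (s' a.2))]
        constructor
        · refine (norm_add_le _ _).trans ?_
          linarith [norm_sub_le (md j ((v j)⁻¹ • v) (cz (s a.2) - cz (s' a.2)))
            (md j ((v j)⁻¹ • v) (cz (s a'.2) - cz (s' a'.2))), h3.2, h4.2]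
        · refine (norm_add_le _ _).trans ?_
          linarith [norm_sub_le (cz (s a.2) - cz (s' a.2)) (cz (s a'.2) - cz (s' a'.2)),
            h3.1, h4.1]
    exact ⟨W, h1, fun y c' hc' e => h2 (y, c') ⟨hc', e⟩⟩
  · refine few2 hφ hψ0 (fun y => wf φ y = b) (fun y => md j ((v j)⁻¹ • v) (cz y)) cz
      fun y y' ha hb' => ?_
    have h1 := Fq_near hφ (ha.trans hb'.symm)
    have h2 := norm_md j hb (cz y - cz y')
    rw [← md_sub]
    constructor <;> linarith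

end Pool.Agent.MP_5168f5_an.H29N
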